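import Mathlib

-- part MP_a0be58_an.Alg
section

/-! Abstract polynomial calculus for group actions on abelian groups. -/

namespace Pool.Agent.MP_a0be58_an

section Pol
variable {ι ι' M M' : Type*} [AddCommGroup M] [AddCommGroup M']

/-- `Pol D d m`: all `d`-fold differences of `m` vanish (degree less than `d`). -/
def Pol (D : ι → M →+ M) : ℕ → M → Prop
  | 0, m => m = 0
  | d + 1, m => ∀ i, Pol D d (D i m - m)

variable {D : ι → M →+ M}

lemma Pol.zero (D : ι → M →+ M) : ∀ d, Pol D d 0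
  | 0 => rfl
  | d + 1 => fun i => by simpa using Pol.zero D d

lemma Pol.add : ∀ {d : ℕ} {a b : M}, Pol D d a → Pol D d b → Pol D d (a + b)
  | 0, a, b, ha, hb => by
      have ha' : a = 0 := ha
      have hb' : b = 0 := hb
      show a + b = 0
      simp [ha', hb']
  | d + 1, a, b, ha, hb => fun i => by
      have := Pol.add (ha i) (hb i)
      have e : D i (a + b) - (a + b) = D i a - a + (D i b - b) := by rw [map_add]; abel
      rw [e]; exact this

lemma Pol.neg : ∀ {d : ℕ} {a : M}, Pol D d a → Pol D d (-a)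
  | 0, a, ha => by
      have ha' : a = 0 := ha
      show -a = 0
      simp [ha']
  | d + 1, a, ha => fun i => by
      have := Pol.neg (ha i)
      have e : D i (-a) - (-a) = -(D i a - a) := by rw [map_neg]; abel
      rw [e]; exact this

lemma Pol.sub {d : ℕ} {a b : M} (ha : Pol D d a) (hb : Pol D d b) : Pol D d (a - b) := by
  rw [sub_eq_add_neg]; exact ha.add hb.neg

/-- The elements of degree less than `d` as a subgroup. -/
def polSub (D : ι → M →+ M) (d : ℕ) : AddSubgroup M where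
  carrier := {m | Pol D d m}
  zero_mem' := Pol.zero D d
  add_mem' := Pol.add
  neg_mem' := Pol.neg

lemma Pol.zsmul {d : ℕ} {a : M} (n : ℤ) (ha : Pol D d a) : Pol D d (n • a) :=
  (polSub D d).zsmul_mem ha n

lemma Pol.nsmul {d : ℕ} {a : M} (n : ℕ) (ha : Pol D d a) : Pol D d (n • a) :=
  (polSub D d).nsmul_mem ha n

lemma Pol.sum {κ : Type*} {d : ℕ} (s : Finset κ) (f : κ → M) (h : ∀ k ∈ s, Pol D d (f k)) :
    Pol D d (∑ k ∈ s, f k) :=
  (polSub D d).sum_mem h

lemma Pol.succ : ∀ {d : ℕ} {a : M}, Pol D d a → Pol D (d + 1) a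
  | 0, a, ha => fun i => by
      have ha' : a = 0 := ha
      show D i a - a = 0
      simp [ha']
  | _ + 1, _, ha => fun i => Pol.succ (ha i)

lemma Pol.mono {d e : ℕ} {a : M} (h : d ≤ e) (ha : Pol D d a) : Pol D e a := by
  induction h with
  | refl => exact ha
  | step _ ih => exact ih.succ

lemma Pol.of_range {D' : ι' → M →+ M} (h : ∀ j, ∃ i, D' j = D i) :
    ∀ {d : ℕ} {a : M}, Pol D d a → Pol D' d a
  | 0, _, ha => ha
  | _ + 1, a, ha => fun j => by
      obtain ⟨i, hi⟩ := h j
      rw [hi]; exact Pol.of_range h (ha i)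

lemma Pol.map {D' : ι → M' →+ M'} (π : M →+ M') (h : ∀ i m, π (D i m) = D' i (π m)) :
    ∀ {d : ℕ} {a : M}, Pol D d a → Pol D' d (π a)
  | 0, a, ha => by
      have ha' : a = 0 := ha
      show π a = 0
      simp [ha']
  | _ + 1, a, ha => fun i => by
      have := Pol.map π h (ha i)
      rwa [map_sub, h] at this

lemma Pol.of_map {D' : ι → M' →+ M'} (π : M →+ M') (h : ∀ i m, π (D i m) = D' i (π m))
    (hπ : Function.Injective π) : ∀ {d : ℕ} {a : M}, Pol D' d (π a) → Pol D d a
  | 0, a, ha => by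
      have ha' : π a = 0 := ha
      show a = 0
      exact hπ (by simpa using ha')
  | _ + 1, a, ha => fun i => by
      apply Pol.of_map π h hπ
      rw [map_sub, h]; exact ha i

lemma Pol.pow (i : ι) : ∀ {d : ℕ} {a : M}, Pol D d a →
    (((show AddMonoid.End M from D i) - 1) ^ d) a = 0
  | 0, a, ha => by
      have ha' : a = 0 := ha
      simp [ha']
  | d + 1, a, ha => by
      rw [pow_succ]
      exact Pol.pow i (ha i)

lemma pow_apply_eq_zero_of_le (E : AddMonoid.End M) {C i : ℕ} {a : M} (h : (E ^ C) a = 0)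
    (hi : C ≤ i) : (E ^ i) a = 0 := by
  obtain ⟨t, rfl⟩ := Nat.exists_eq_add_of_le hi
  rw [add_comm, pow_add]
  show (E ^ t) ((E ^ C) a) = 0
  rw [h, map_zero]

lemma add_one_pow_apply (E : AddMonoid.End M) (m : ℕ) (a : M) :
    ((E + 1) ^ m) a = ∑ j ∈ Finset.range (m + 1), m.choose j • (E ^ j) a := by
  rw [(Commute.one_right E).add_pow m]
  have : ∀ s : Finset ℕ, ∀ f : ℕ → AddMonoid.End M, (∑ j ∈ s, f j) a = ∑ j ∈ s, f j a := by
    intro s f
    exact map_sum (AddMonoidHom.eval a) f s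
  rw [this]
  refine Finset.sum_congr rfl fun j _ => ?_
  rw [one_pow, mul_one, ← nsmul_eq_mul']
  rfl

lemma bin1 (E : AddMonoid.End M) {C p : ℕ} (hp : p.Prime) (hC : C ≤ p) {a : M}
    (h : (E ^ C) a = 0) (h2 : (p ^ 2) • E a = 0) : ((E + 1) ^ (p ^ 2)) a = a := by
  rw [add_one_pow_apply, Finset.sum_range_succ']
  have : ∀ j ∈ Finset.range (p ^ 2), (p ^ 2).choose (j + 1) • (E ^ (j + 1)) a = 0 := by
    intro j _
    by_cases hj : C ≤ j + 1
    · rw [pow_apply_eq_zero_of_le E h hj, smul_zero]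
    · have hjp : j + 1 < p := by omega
      have hdvd : p ^ 2 ∣ (p ^ 2).choose (j + 1) := by
        have hpos : 0 < p ^ 2 := pow_pos hp.pos 2
        obtain ⟨n, hn⟩ : ∃ n, p ^ 2 = n + 1 := ⟨p ^ 2 - 1, by omega⟩
        have e := Nat.add_one_mul_choose_eq n j
        rw [← hn] at e
        have hcop : Nat.Coprime (p ^ 2) (j + 1) :=
          Nat.Coprime.pow_left 2 ((Nat.coprime_of_lt_prime (by omega) hjp hp))
        exact hcop.dvd_of_dvd_mul_right ⟨_, e.symm⟩
      obtain ⟨t, ht⟩ := hdvd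
      rw [ht, pow_succ E j, mul_comm, mul_smul]
      show t • p ^ 2 • (E ^ j) (E a) = 0
      rw [← map_nsmul, h2, map_zero, smul_zero]
  rw [Finset.sum_eq_zero this]
  simp

lemma bin2 (E : AddMonoid.End M) {C p : ℕ} (hp : p.Prime) (hC : C ≤ p) {a : M}
    (h : (E ^ C) a = 0) (h2 : ((E + 1) ^ p) a = a) : p • E a = 0 := by
  have key : ∀ t i, C ≤ i + 1 + t → p • (E ^ (i + 1)) a = 0 := by
    intro t
    induction t with
    | zero => intro i hi; rw [pow_apply_eq_zero_of_le E h hi, smul_zero]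
    | succ t ih =>
      intro i hi
      obtain ⟨n, hn⟩ : ∃ n, p = n + 1 := ⟨p - 1, by have := hp.pos; omega⟩
      have e := h2
      rw [add_one_pow_apply, Finset.sum_range_succ'] at e
      have e1 : ∑ j ∈ Finset.range p, p.choose (j + 1) • (E ^ (j + 1)) a = 0 := by
        simpa using e
      have e2 : ∑ j ∈ Finset.range p, p.choose (j + 1) • (E ^ (i + (j + 1))) a = 0 := by
        have := congrArg (E ^ i) e1
        rw [map_sum, map_zero] at this
        rw [← this]
        refine Finset.sum_congr rfl fun j _ => ?_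
        rw [map_nsmul, pow_add]
        rfl
      have e3 : ∑ j ∈ Finset.range (n + 1), p.choose (j + 1) • (E ^ (i + (j + 1))) a = 0 := by
        rw [← hn]; exact e2
      rw [Finset.sum_range_succ'] at e3
      have : ∀ j ∈ Finset.range n, p.choose (j + 1 + 1) • (E ^ (i + (j + 1 + 1))) a = 0 := by
        intro j hj
        have hj' : j < n := Finset.mem_range.1 hj
        by_cases hjp : j + 2 = p
        · rw [pow_apply_eq_zero_of_le E h (by omega), smul_zero]
        · obtain ⟨s, hs⟩ := hp.dvd_choose_self (k := j + 1 + 1) (by omega) (by omega)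
          rw [hs, mul_comm, mul_smul]
          have := ih (i + (j + 1)) (by omega)
          rw [show i + (j + 1 + 1) = i + (j + 1) + 1 by ring, this, smul_zero]
      rw [Finset.sum_eq_zero this] at e3
      simpa using e3
  simpa using key C 0 (by omega)

end Pol

section Nil
variable {G M : Type*} [Group G] [AddCommGroup M]

/-- Weighted degree with respect to the filtration induced on `N`. -/
def Wt (act : G → M →+ M) (F : ℕ → Subgroup G) (N : Subgroup G) : ℕ → M → Prop
  | 0, m => m = 0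
  | w + 1, m => ∀ a n, n ∈ N → n ∈ F (a + 1) → Wt act F N (w - a) (act n m - m)
termination_by w => w
decreasing_by omega

variable {act : G → M →+ M} {F : ℕ → Subgroup G} {N : Subgroup G}

lemma wt_zero_iff (m : M) : Wt act F N 0 m ↔ m = 0 := by rw [Wt]

lemma wt_succ_iff (w : ℕ) (m : M) : Wt act F N (w + 1) m ↔
    ∀ a n, n ∈ N → n ∈ F (a + 1) → Wt act F N (w - a) (act n m - m) := by rw [Wt]

lemma Wt.zero (w : ℕ) : Wt act F N w 0 := by
  induction w using Nat.strong_induction_on with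
  | _ w ih =>
    cases w with
    | zero => rw [wt_zero_iff]
    | succ w =>
      rw [wt_succ_iff]
      intro a n _ _
      simpa using ih (w - a) (by omega)

lemma Wt.add (w : ℕ) : ∀ a b : M, Wt act F N w a → Wt act F N w b → Wt act F N w (a + b) := by
  induction w using Nat.strong_induction_on with
  | _ w ih =>
    intro x y hx hy
    cases w with
    | zero => rw [wt_zero_iff] at *; simp [hx, hy]
    | succ w =>
      rw [wt_succ_iff] at *
      intro a n h1 h2
      have := ih (w - a) (by omega) _ _ (hx a n h1 h2) (hy a n h1 h2)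
      have e : act n (x + y) - (x + y) = act n x - x + (act n y - y) := by rw [map_add]; abel
      rw [e]; exact this

lemma wt_of_pol (h1 : ∀ m, act 1 m = m) {k : ℕ} (hanti : Antitone F) (hlast : F (k + 1) = ⊥) :
    ∀ (d : ℕ) (m : M), Pol (fun n : N => act n) d m → ∀ w, (k + 1) * d ≤ w → Wt act F N w m := by
  intro d
  induction d with
  | zero =>
    intro m hm w _
    have : m = 0 := hm
    rw [this]; exact Wt.zero w
  | succ d ih =>
    intro m hm w hw
    obtain ⟨v, rfl⟩ : ∃ v, w = v + 1 := ⟨w - 1, by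
      have : 1 ≤ (k + 1) * (d + 1) := Nat.mul_pos (by omega) (by omega)
      omega⟩
    rw [wt_succ_iff]
    intro a n hn hF
    by_cases ha : k ≤ a
    · have : n ∈ F (k + 1) := hanti (by omega) hF
      rw [hlast, Subgroup.mem_bot] at this
      rw [this, h1, sub_self]; exact Wt.zero _
    · refine ih _ (hm ⟨n, hn⟩) _ ?_
      have : (k + 1) * (d + 1) = (k + 1) * d + (k + 1) := by ring
      omega

lemma Wt.apply_act (hmul : ∀ g h m, act (g * h) m = act h (act g m))
    (hFn : ∀ a g n, n ∈ F a → g * n * g⁻¹ ∈ F a)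
    {h : G} (hh : ∀ n ∈ N, h * n * h⁻¹ ∈ N) (w : ℕ) :
    ∀ m, Wt act F N w m → Wt act F N w (act h m) := by
  induction w using Nat.strong_induction_on with
  | _ w ih =>
    intro m hm
    cases w with
    | zero => rw [wt_zero_iff] at *; simp [hm]
    | succ w =>
      rw [wt_succ_iff] at *
      intro a n h1 h2
      have := ih (w - a) (by omega) _ (hm a _ (hh n h1) (hFn _ h n h2))
      have e : act n (act h m) - act h m = act h (act (h * n * h⁻¹) m - m) := by
        rw [map_sub, ← hmul, ← hmul]; simp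
      rw [e]; exact this

lemma Wt.diff (hmul : ∀ g h m, act (g * h) m = act h (act g m))
    (hone : F 1 = ⊤)
    (hFn : ∀ a g n, n ∈ F a → g * n * g⁻¹ ∈ F a)
    (hFc : ∀ a g n, n ∈ F a → g * n * g⁻¹ * n⁻¹ ∈ F (a + 1))
    (hinv : ∀ m, (∀ n ∈ N, act n m = m) → ∀ g, act g m = m)
    {h : G} (hh : ∀ n ∈ N, h * n * h⁻¹ ∈ N) (w : ℕ) :
    ∀ m, Wt act F N (w + 1) m → Wt act F N w (act h m - m) := by
  induction w using Nat.strong_induction_on with
  | _ w ih =>
    intro m hm
    cases w with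
    | zero =>
      rw [wt_zero_iff, sub_eq_zero]
      rw [wt_succ_iff] at hm
      refine hinv m (fun n hn => ?_) h
      have := hm 0 n hn (by rw [zero_add, hone]; trivial)
      rwa [wt_zero_iff, sub_eq_zero] at this
    | succ v =>
      rw [wt_succ_iff]
      intro a n h1 h2
      rw [wt_succ_iff] at hm
      have hc1 : h * n * h⁻¹ * n⁻¹ ∈ N := N.mul_mem (hh n h1) (N.inv_mem h1)
      have t1 := hm (a + 1) _ hc1 (hFc _ h n h2)
      rw [show v + 1 - (a + 1) = v - a by omega] at t1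
      have hnh : ∀ x ∈ N, (n * h) * x * (n * h)⁻¹ ∈ N := by
        intro x hx
        have := N.mul_mem (N.mul_mem h1 (hh x hx)) (N.inv_mem h1)
        have e : n * (h * x * h⁻¹) * n⁻¹ = (n * h) * x * (n * h)⁻¹ := by group
        rwa [e] at this
      have t2 := Wt.apply_act hmul hFn hnh _ _ t1
      have t3 : Wt act F N (v - a) (act h (act n m - m) - (act n m - m)) := by
        have t4 := hm a n h1 h2
        by_cases hav : a ≤ v
        · rw [show v + 1 - a = (v - a) + 1 by omega] at t4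
          exact ih (v - a) (by omega) _ t4
        · rw [show v + 1 - a = 0 by omega, wt_zero_iff] at t4
          rw [t4]; simpa using Wt.zero _
      have t5 := Wt.add _ _ _ t2 t3
      have e : act n (act h m - m) - (act h m - m) =
          act (n * h) (act (h * n * h⁻¹ * n⁻¹) m - m) +
            (act h (act n m - m) - (act n m - m)) := by
        rw [map_sub, map_sub, map_sub, ← hmul, ← hmul, ← hmul]
        have : h * n * h⁻¹ * n⁻¹ * (n * h) = h * n := by group
        rw [this]; abel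
      rw [e]; exact t5

lemma pol_of_wt (hmul : ∀ g h m, act (g * h) m = act h (act g m))
    (hone : F 1 = ⊤)
    (hFn : ∀ a g n, n ∈ F a → g * n * g⁻¹ ∈ F a)
    (hFc : ∀ a g n, n ∈ F a → g * n * g⁻¹ * n⁻¹ ∈ F (a + 1))
    (hinv : ∀ m, (∀ n ∈ N, act n m = m) → ∀ g, act g m = m)
    {H : Subgroup G} (hH : ∀ h ∈ H, ∀ n ∈ N, h * n * h⁻¹ ∈ N) :
    ∀ (w : ℕ) (m : M), Wt act F N w m → Pol (fun h : H => act h) w m := by
  intro w
  induction w with
  | zero => intro m hm; rwa [wt_zero_iff] at hm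
  | succ w ih =>
    intro m hm h
    exact ih _ (Wt.diff hmul hone hFn hFc hinv (hH h h.2) w m hm)

/-- Polynomials for a subgroup with the same invariants are polynomials of bounded degree for the
whole nilpotent group. -/
theorem nil_pol (h1 : ∀ m, act 1 m = m) (hmul : ∀ g h m, act (g * h) m = act h (act g m))
    {k : ℕ} (hone : F 1 = ⊤) (hanti : Antitone F) (hlast : F (k + 1) = ⊥)
    (hcomm : ∀ i j, ⁅F i, F j⁆ ≤ F (i + j)) (Γ : Subgroup G)
    (hinv : ∀ m, (∀ n ∈ Γ, act n m = m) → ∀ g, act g m = m) (d : ℕ) :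
    ∃ C, ∀ m, Pol (fun n : Γ => act n) d m → Pol act C m := by
  have hFc : ∀ a g n, n ∈ F a → g * n * g⁻¹ * n⁻¹ ∈ F (a + 1) := by
    intro a g n hn
    have : g * n * g⁻¹ * n⁻¹ ∈ ⁅F 1, F a⁆ :=
      Subgroup.commutator_mem_commutator (show g ∈ F 1 by rw [hone]; trivial) hn
    have := hcomm 1 a this
    rwa [add_comm] at this
  have hFc' : ∀ a g n, g ∈ F a → g * n * g⁻¹ * n⁻¹ ∈ F (a + 1) := by
    intro a g n hn
    have : g * n * g⁻¹ * n⁻¹ ∈ ⁅F a, F 1⁆ :=
      Subgroup.commutator_mem_commutator hn (show n ∈ F 1 by rw [hone]; trivial)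
    exact hcomm a 1 this
  have hFn : ∀ a g n, n ∈ F a → g * n * g⁻¹ ∈ F a := by
    intro a g n hn
    have := (F a).mul_mem (hanti (Nat.le_succ a) (hFc a g n hn)) hn
    simpa using this
  have key : ∀ t j, j + t = k + 1 → ∃ C, ∀ m, Pol (fun n : Γ => act n) d m →
      Pol (fun n : (Γ ⊔ F j : Subgroup G) => act n) C m := by
    intro t
    induction t with
    | zero =>
      intro j hj
      refine ⟨d, fun m hm => Pol.of_range (fun n => ?_) hm⟩
      obtain ⟨n, hn⟩ := n
      have hn' := hn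
      rw [show j = k + 1 by omega, hlast, sup_bot_eq] at hn'
      exact ⟨⟨n, hn'⟩, rfl⟩
    | succ t ih =>
      intro j hj
      obtain ⟨C, hC⟩ := ih (j + 1) (by omega)
      refine ⟨(k + 1) * C, fun m hm => ?_⟩
      have hw := wt_of_pol (F := F) h1 hanti hlast C m (hC m hm) _ le_rfl
      refine pol_of_wt hmul hone hFn hFc (fun m hm => hinv m fun n hn => hm n ?_) ?_ _ m hw
      · exact Subgroup.mem_sup_left hn
      · have : (Γ ⊔ F j : Subgroup G) ≤ Subgroup.normalizer ((Γ ⊔ F (j + 1) : Subgroup G) : Set G) := by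
          refine sup_le (le_sup_left.trans Subgroup.le_normalizer) ?_
          rw [Subgroup.le_normalizer_iff]
          intro g hg x hx
          have := Subgroup.mul_mem _ (Subgroup.mem_sup_right (S := Γ) (hFc' j g x hg)) hx
          simpa using this
        intro h hh n hn
        exact (Subgroup.le_normalizer_iff.1 this) h hh n hn
  obtain ⟨C, hC⟩ := key k 1 (by omega)
  refine ⟨C, fun m hm => Pol.of_range (fun g => ?_) (hC m hm)⟩
  exact ⟨⟨g, by rw [hone]; simp⟩, rfl⟩

end Nil

end Pool.Agent.MP_a0be58_an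

end

-- part MP_a0be58_an.Rigid
section

/-! Circle valued functions, Koopman operators, and the rigidity lemma. -/

open MeasureTheory Filter Topology Set
open scoped ENNReal ComplexConjugate InnerProductSpace

namespace Pool.Agent.MP_a0be58_an

set_option linter.unusedSectionVars false

/-- The circle. -/
abbrev TT : Type := UnitAddCircle

/-- The standard character. -/
noncomputable def ex (t : TT) : ℂ := (AddCircle.toCircle t : ℂ)

lemma ex_add (s t : TT) : ex (s + t) = ex s * ex t := by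
  simp [ex, AddCircle.toCircle_add]

@[simp] lemma ex_zero : ex 0 = 1 := by simp [ex]

@[simp] lemma norm_ex (t : TT) : ‖ex t‖ = 1 := by simp [ex]

lemma ex_neg (t : TT) : ex (-t) = conj (ex t) := by
  rw [ex, AddCircle.toCircle_neg, Circle.coe_inv_eq_conj, ex]

lemma ex_sub (s t : TT) : ex (s - t) = ex s * conj (ex t) := by
  rw [sub_eq_add_neg, ex_add, ex_neg]

lemma ex_mul_conj (t : TT) : ex t * conj (ex t) = 1 := by
  rw [← ex_sub, sub_self, ex_zero]

lemma ex_ne_zero (t : TT) : ex t ≠ 0 := by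
  intro h; have := norm_ex t; rw [h] at this; simp at this

@[fun_prop] lemma continuous_ex : Continuous ex :=
  continuous_subtype_val.comp AddCircle.continuous_toCircle

lemma ex_injective : Function.Injective ex :=
  Subtype.val_injective.comp (AddCircle.injective_toCircle one_ne_zero)

/-- A measurable section of `ex`. -/
noncomputable def sec (z : ℂ) : TT := ((Complex.arg z / (2 * Real.pi) : ℝ) : TT)

lemma measurable_sec : Measurable sec :=
  (AddCircle.continuous_mk' (1 : ℝ)).measurable.comp (Complex.measurable_arg.div_const _)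

lemma norm_mul_ex_sec (z : ℂ) : (‖z‖ : ℂ) * ex (sec z) = z := by
  have : ex (sec z) = Complex.exp (Complex.arg z * Complex.I) := by
    simp only [ex, sec, AddCircle.toCircle_apply_mk, Circle.coe_exp]
    congr 2
    have := Real.pi_ne_zero
    norm_cast
    field_simp
  rw [this, Complex.norm_mul_exp_arg_mul_I]

lemma sec_ex (t : TT) : sec (ex t) = t := by
  apply ex_injective
  have := norm_mul_ex_sec (ex t)
  simpa using this

lemma norm_ex_sub_ex_sec (t : TT) (z : ℂ) : ‖ex t - ex (sec z)‖ ≤ 2 * ‖ex t - z‖ := by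
  have h1 : ‖z - ex (sec z)‖ ≤ ‖ex t - z‖ := by
    have e : z - ex (sec z) = ((‖z‖ - 1 : ℝ) : ℂ) * ex (sec z) := by
      conv_lhs => rw [← norm_mul_ex_sec z]
      rw [norm_mul_ex_sec z]; push_cast
      rw [sub_mul, norm_mul_ex_sec z, one_mul]
    rw [e, norm_mul, norm_ex, mul_one, Complex.norm_real, Real.norm_eq_abs, abs_sub_comm]
    have := abs_norm_sub_norm_le (ex t) z
    rwa [norm_ex] at this
  calc ‖ex t - ex (sec z)‖ = ‖(ex t - z) + (z - ex (sec z))‖ := by ring_nf
    _ ≤ ‖ex t - z‖ + ‖z - ex (sec z)‖ := norm_add_le _ _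
    _ ≤ 2 * ‖ex t - z‖ := by linarith

section Kop
variable {X Y Z : Type*} [MeasurableSpace X] [MeasurableSpace Y] [MeasurableSpace Z]
  {μ : Measure X} {ν : Measure Y} {ρ : Measure Z}

lemma integral_comp_mp {S : X → Y} (h : MeasurePreserving S μ ν) {g : Y → ℂ}
    (hg : AEStronglyMeasurable g ν) : ∫ x, g (S x) ∂μ = ∫ y, g y ∂ν := by
  rw [← h.map_eq] at hg ⊢
  rw [integral_map h.measurable.aemeasurable hg]

lemma integral_comp_mp_real {S : X → Y} (h : MeasurePreserving S μ ν) {g : Y → ℝ}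
    (hg : AEStronglyMeasurable g ν) : ∫ x, g (S x) ∂μ = ∫ y, g y ∂ν := by
  rw [← h.map_eq] at hg ⊢
  rw [integral_map h.measurable.aemeasurable hg]

/-- Koopman operator on circle valued functions. -/
noncomputable def kop {S : X → Y} (h : MeasurePreserving S μ ν) :
    (Y →ₘ[ν] TT) →+ (X →ₘ[μ] TT) :=
  AddMonoidHom.mk' (fun P => P.compMeasurePreserving S h) (by
    intro P R
    refine AEEqFun.ext ?_
    filter_upwards [(P + R).coeFn_compMeasurePreserving h,
      AEEqFun.coeFn_add (P.compMeasurePreserving S h) (R.compMeasurePreserving S h),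
      P.coeFn_compMeasurePreserving h, R.coeFn_compMeasurePreserving h,
      h.quasiMeasurePreserving.ae_eq_comp (AEEqFun.coeFn_add P R)] with x h1 h2 h3 h4 h5
    simp only [Function.comp_apply, Pi.add_apply] at *
    rw [h1, h2, h3, h4, h5])

lemma coeFn_kop {S : X → Y} (h : MeasurePreserving S μ ν) (P : Y →ₘ[ν] TT) :
    ∀ᵐ x ∂μ, kop h P x = P (S x) := P.coeFn_compMeasurePreserving h

lemma kop_mk {S : X → Y} (h : MeasurePreserving S μ ν) (f : Y → TT)
    (hf : AEStronglyMeasurable f ν) :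
    kop h (AEEqFun.mk f hf) = AEEqFun.mk (fun x => f (S x)) (hf.comp_measurePreserving h) := rfl

lemma kop_injective {S : X → Y} (h : MeasurePreserving S μ ν) : Function.Injective (kop h) := by
  rw [injective_iff_map_eq_zero]
  intro P hP
  refine AEEqFun.ext ?_
  have h1 : ∀ᵐ x ∂μ, P (S x) = 0 := by
    filter_upwards [coeFn_kop h P, AEEqFun.coeFn_zero (α := X) (μ := μ) (β := TT)] with x h1 h2
    rw [← h1, hP, h2]; rfl
  have h2 : ∀ᵐ y ∂ν, P y = 0 := by
    have h3 := (ae_map_iff (p := fun y => P y = 0) h.measurable.aemeasurable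
      (P.stronglyMeasurable.measurable (measurableSet_singleton 0))).2 h1
    rwa [h.map_eq] at h3
  filter_upwards [h2, AEEqFun.coeFn_zero (α := Y) (μ := ν) (β := TT)] with y h1 h2
  rw [h1, h2]; rfl

lemma kop_kop {S : X → Y} {S' : Y → Z} {S'' : X → Z} (h : MeasurePreserving S μ ν)
    (h' : MeasurePreserving S' ν ρ) (h'' : MeasurePreserving S'' μ ρ)
    (e : ∀ᵐ x ∂μ, S'' x = S' (S x)) (P : Z →ₘ[ρ] TT) : kop h (kop h' P) = kop h'' P := by
  refine AEEqFun.ext ?_
  filter_upwards [coeFn_kop h (kop h' P), h.quasiMeasurePreserving.ae (coeFn_kop h' P),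
    coeFn_kop h'' P, e] with x h1 h2 h3 h4
  rw [h1, h2, h3, h4]

lemma kop_const {S : X → Y} (h : MeasurePreserving S μ ν) (c : TT) :
    kop h (AEEqFun.const Y c) = AEEqFun.const X c := rfl

lemma aesm_ex (P : X →ₘ[μ] TT) : AEStronglyMeasurable (fun x => ex (P x)) μ :=
  continuous_ex.comp_aestronglyMeasurable P.aestronglyMeasurable

lemma memLp_ex [IsFiniteMeasure μ] (P : X →ₘ[μ] TT) (p : ℝ≥0∞) : MemLp (fun x => ex (P x)) p μ :=
  MemLp.of_bound (aesm_ex P) 1 (Eventually.of_forall fun x => (norm_ex _).le)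

/-- Distance to zero. -/
noncomputable def del (P : X →ₘ[μ] TT) : ℝ := ∫ x, ‖ex (P x) - 1‖ ∂μ

lemma integrable_del [IsFiniteMeasure μ] (P : X →ₘ[μ] TT) :
    Integrable (fun x => ‖ex (P x) - 1‖) μ :=
  (((memLp_ex P 1).integrable le_rfl).sub (integrable_const 1)).norm

lemma del_sub_le [IsFiniteMeasure μ] (P R : X →ₘ[μ] TT) : del (P - R) ≤ del P + del R := by
  rw [del, del, del, ← integral_add (integrable_del P) (integrable_del R)]
  refine integral_mono_ae (integrable_del _) ((integrable_del P).add (integrable_del R)) ?_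
  filter_upwards [AEEqFun.coeFn_sub P R] with x hx
  rw [hx, Pi.sub_apply, ex_sub]
  have e : ex (P x) * conj (ex (R x)) - 1 =
      (ex (P x) - 1) * conj (ex (R x)) - (ex (R x) - 1) * conj (ex (R x)) := by
    have := ex_mul_conj (R x)
    linear_combination this
  rw [e]
  refine (norm_sub_le _ _).trans ?_
  simp

lemma del_kop {S : X → Y} (h : MeasurePreserving S μ ν) (P : Y →ₘ[ν] TT) :
    del (kop h P) = del P := by
  rw [del, del, ← integral_comp_mp_real h (g := fun y => ‖ex (P y) - 1‖)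
    ((aesm_ex P).sub aestronglyMeasurable_const).norm]
  refine integral_congr_ae ?_
  filter_upwards [coeFn_kop h P] with x hx
  simp [hx]

lemma inner_L2 (f g : Lp ℂ 2 μ) : ⟪f, g⟫_ℂ = ∫ x, g x * conj (f x) ∂μ := by
  rw [L2.inner_def]; simp

variable {ι : Type*} [IsProbabilityMeasure μ] [IsProbabilityMeasure ν]

lemma rigid_step {S : ι → X → X} {S' : ι → Y → Y} {π : X → Y}
    (hS : ∀ i, MeasurePreserving (S i) μ μ) (hS' : ∀ i, MeasurePreserving (S' i) ν ν)
    (hπ : MeasurePreserving π μ ν) (heq : ∀ i, ∀ᵐ x ∂μ, π (S i x) = S' i (π x))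
    (herg : ∀ g : X → ℂ, MemLp g 2 μ → (∀ i, ∀ᵐ x ∂μ, g (S i x) = g x) → ∃ c, ∀ᵐ x ∂μ, g x = c)
    (P : X →ₘ[μ] TT) (hP : ∀ i, ∃ R, kop (hS i) P - P = kop hπ R)
    (R₀ : Y →ₘ[ν] TT) (h0 : del (P - kop hπ R₀) < 1) : ∃ R, P = kop hπ R := by
  let F : Lp ℂ 2 μ := (memLp_ex P 2).toLp _
  have hF : ∀ᵐ x ∂μ, F x = ex (P x) := MemLp.coeFn_toLp _
  let J : Lp ℂ 2 ν →L[ℂ] Lp ℂ 2 μ := (Lp.compMeasurePreservingₗᵢ ℂ π hπ).toContinuousLinearMap
  have hJ : ∀ g : Lp ℂ 2 ν, ∀ᵐ x ∂μ, J g x = g (π x) := fun g =>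
    Lp.coeFn_compMeasurePreserving g hπ
  let c : Lp ℂ 2 ν := ContinuousLinearMap.adjoint J F
  have hc : ∀ g : Lp ℂ 2 ν, ⟪g, c⟫_ℂ = ∫ x, ex (P x) * conj (g (π x)) ∂μ := by
    intro g
    rw [ContinuousLinearMap.adjoint_inner_right, inner_L2]
    refine integral_congr_ae ?_
    filter_upwards [hF, hJ g] with x h1 h2
    rw [h1, h2]
  have hcm : MemLp (fun x => c (π x)) 2 μ := (Lp.memLp c).comp_measurePreserving hπ
  have hinv : ∀ i, ∀ᵐ x ∂μ, conj (ex (P (S i x))) * c (π (S i x)) = conj (ex (P x)) * c (π x) := by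
    intro i
    obtain ⟨R, hR⟩ := hP i
    have hR' : ∀ᵐ x ∂μ, ex (P (S i x)) = ex (P x) * ex (R (π x)) := by
      filter_upwards [AEEqFun.coeFn_sub (kop (hS i) P) P, coeFn_kop (hS i) P, coeFn_kop hπ R]
        with x h1 h2 h3
      rw [hR, h3, Pi.sub_apply, h2] at h1
      rw [h1, ← ex_add]; congr 1; abel
    have hm0 : MemLp (fun y => c (S' i y)) 2 ν := (Lp.memLp c).comp_measurePreserving (hS' i)
    have hae : AEStronglyMeasurable (fun y => conj (ex (R y)) * c (S' i y)) ν :=
      (Complex.continuous_conj.comp_aestronglyMeasurable (aesm_ex R)).mul hm0.1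
    have hnorm : ∀ᵐ y ∂ν, ‖conj (ex (R y)) * c (S' i y)‖ = ‖c (S' i y)‖ :=
      Eventually.of_forall fun y => by simp
    have hm : MemLp (fun y => conj (ex (R y)) * c (S' i y)) 2 ν :=
      hm0.congr_norm hae (hnorm.mono fun _ h => h.symm)
    let c' : Lp ℂ 2 ν := hm.toLp _
    have hc' : ∀ᵐ y ∂ν, c' y = conj (ex (R y)) * c (S' i y) := MemLp.coeFn_toLp _
    have hn : ‖c'‖ = ‖c‖ := by
      rw [Lp.norm_toLp, eLpNorm_congr_norm_ae hnorm, Lp.norm_def]
      congr 1
      exact eLpNorm_comp_measurePreserving (Lp.memLp c).1 (hS' i)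
    have hi : ⟪c', c⟫_ℂ = ⟪c, c⟫_ℂ := by
      rw [hc, hc, ← integral_comp_mp (hS i) (g := fun x => ex (P x) * conj (c (π x)))
        ((aesm_ex P).mul (Complex.continuous_conj.comp_aestronglyMeasurable hcm.1))]
      refine integral_congr_ae ?_
      filter_upwards [hπ.quasiMeasurePreserving.ae hc', hR', heq i] with x h1 h2 h3
      rw [h1, h2, h3]; simp; ring
    have hcc : c' = c := by
      refine eq_of_norm_le_re_inner_eq_norm_sq (𝕜 := ℂ) hn.le ?_
      rw [hi, inner_self_eq_norm_sq]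
    filter_upwards [hπ.quasiMeasurePreserving.ae hc', hR', heq i] with x h1 h2 h3
    rw [hcc] at h1
    rw [h1, h2, h3]; simp; ring
  have hG : MemLp (fun x => conj (ex (P x)) * c (π x)) 2 μ :=
    hcm.congr_norm ((Complex.continuous_conj.comp_aestronglyMeasurable (aesm_ex P)).mul hcm.1)
      (Eventually.of_forall fun y => by simp)
  obtain ⟨κ, hκ⟩ := herg _ hG hinv
  have hκ' : ∀ᵐ x ∂μ, c (π x) = κ * ex (P x) := by
    filter_upwards [hκ] with x hx
    rw [← hx]
    have := ex_mul_conj (P x)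
    linear_combination (-c (π x)) * this
  have hκ0 : κ ≠ 0 := by
    rintro rfl
    let g : Lp ℂ 2 ν := (memLp_ex R₀ 2).toLp _
    have hg : ∀ᵐ y ∂ν, g y = ex (R₀ y) := MemLp.coeFn_toLp _
    have e1 : ⟪g, c⟫_ℂ = 0 := by
      rw [inner_L2, ← integral_comp_mp hπ (g := fun y => c y * conj (g y))
        ((Lp.memLp c).1.mul (Complex.continuous_conj.comp_aestronglyMeasurable (Lp.memLp g).1))]
      rw [integral_congr_ae (g := fun _ => 0), integral_zero]
      filter_upwards [hκ'] with x hx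
      simp [hx]
    have e2 : ∫ x, ex ((P - kop hπ R₀) x) ∂μ = 0 := by
      rw [← e1, hc]
      refine integral_congr_ae ?_
      filter_upwards [AEEqFun.coeFn_sub P (kop hπ R₀), coeFn_kop hπ R₀,
        hπ.quasiMeasurePreserving.ae hg] with x h1 h2 h3
      rw [h1, Pi.sub_apply, h2, h3, ex_sub]
    have e3 := norm_integral_le_integral_norm (μ := μ) (fun x => ex ((P - kop hπ R₀) x) - 1)
    rw [integral_sub ((memLp_ex _ 1).integrable le_rfl) (integrable_const 1), e2] at e3
    simp only [integral_const, probReal_univ, one_smul, zero_sub, norm_neg, norm_one] at e3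
    exact absurd (e3.trans_lt h0) (lt_irrefl _)
  have hme : AEStronglyMeasurable (fun y => sec (c y / κ)) ν :=
    (measurable_sec.comp ((Lp.stronglyMeasurable c).measurable.div_const κ)).aestronglyMeasurable
  refine ⟨AEEqFun.mk _ hme, AEEqFun.ext ?_⟩
  filter_upwards [coeFn_kop hπ (AEEqFun.mk _ hme),
    hπ.quasiMeasurePreserving.ae (AEEqFun.coeFn_mk _ hme), hκ'] with x h1 h2 h3
  rw [h1, h2, h3, mul_div_cancel_left₀ _ hκ0, sec_ex]

/-- A polynomial that is close to a factor is measurable with respect to it. -/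
theorem rigid {S : ι → X → X} {S' : ι → Y → Y} {π : X → Y}
    (hS : ∀ i, MeasurePreserving (S i) μ μ) (hS' : ∀ i, MeasurePreserving (S' i) ν ν)
    (hπ : MeasurePreserving π μ ν) (heq : ∀ i, ∀ᵐ x ∂μ, π (S i x) = S' i (π x))
    (herg : ∀ g : X → ℂ, MemLp g 2 μ → (∀ i, ∀ᵐ x ∂μ, g (S i x) = g x) → ∃ c, ∀ᵐ x ∂μ, g x = c) :
    ∀ (d : ℕ) (P : X →ₘ[μ] TT), Pol (fun i => kop (hS i)) d P →
      ∀ R₀ : Y →ₘ[ν] TT, del (P - kop hπ R₀) < (1 / 2) ^ d → ∃ R, P = kop hπ R := by
  intro d
  induction d with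
  | zero =>
    intro P hP _ _
    have : P = 0 := hP
    exact ⟨0, by rw [this, map_zero]⟩
  | succ d ih =>
    intro P hP R₀ h0
    refine rigid_step hS hS' hπ heq herg P (fun i => ?_) R₀
      (h0.trans_le (pow_le_one₀ (by norm_num) (by norm_num)))
    refine ih _ (hP i) (kop (hS' i) R₀ - R₀) ?_
    have e : kop hπ (kop (hS' i) R₀) = kop (hS i) (kop hπ R₀) := by
      rw [kop_kop hπ (hS' i) ((hS' i).comp hπ) (Eventually.of_forall fun _ => rfl),
        kop_kop (hS i) hπ ((hS' i).comp hπ) ((heq i).mono fun _ h => h.symm)]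
    have e2 : kop (hS i) P - P - kop hπ (kop (hS' i) R₀ - R₀) =
        kop (hS i) (P - kop hπ R₀) - (P - kop hπ R₀) := by
      rw [map_sub, map_sub, e]; abel
    rw [e2]
    refine (del_sub_le _ _).trans_lt ?_
    rw [del_kop, pow_succ] at *
    linarith

end Kop

end Pool.Agent.MP_a0be58_an

end

-- part MP_a0be58_an.Approx
section

/-! Approximation by functions measurable with respect to an increasing sequence of factors. -/

open MeasureTheory Filter Topology Set
open scoped ENNReal ComplexConjugate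

namespace Pool.Agent.MP_a0be58_an

lemma approx_real {X : Type*} [mX : MeasurableSpace X] {μ : Measure X} [IsProbabilityMeasure μ]
    (m : ℕ → MeasurableSpace X) (hm : ∀ n, m n ≤ mX)
    (hmono : ∀ n, ∀ s, MeasurableSet[m n] s → ∃ t, MeasurableSet[m (n + 1)] t ∧ s =ᵐ[μ] t)
    (hgen : ∀ s : Set X, MeasurableSet[mX] s → ∃ t, MeasurableSet[⨆ n, m n] t ∧ s =ᵐ[μ] t)
    (g : X → ℝ) (hg : Integrable g μ) (hgm : StronglyMeasurable[mX] g) :
    Tendsto (fun n => ∫ x, ‖(μ[g | m n]) x - g x‖ ∂μ) atTop (𝓝 0) := by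
  let ℱ : Filtration ℕ mX :=
    { seq := fun n => mX ⊓ eventuallyMeasurableSpace (m n) (ae μ)
      mono' := monotone_nat_of_le_succ fun n s hs => by
        obtain ⟨h1, t, ht, hst⟩ := hs
        obtain ⟨u, hu, htu⟩ := hmono n t ht
        exact ⟨h1, u, hu, hst.trans htu⟩
      le' := fun n => inf_le_left }
  have hmF : ∀ n, m n ≤ ℱ n := fun n s hs => ⟨hm n s hs, s, hs, EventuallyEq.rfl⟩
  have hnull : ∀ s, MeasurableSet[mX] s → μ s = 0 → MeasurableSet[⨆ n, ℱ n] s := by
    intro s hs h0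
    refine le_iSup (fun n => (ℱ n : MeasurableSpace X)) 0 s ⟨hs, ∅, @MeasurableSet.empty _ (m 0), ?_⟩
    exact ae_eq_empty.2 h0
  have htop : mX ≤ ⨆ n, ℱ n := by
    intro s hs
    obtain ⟨t, ht, hst⟩ := hgen s hs
    have ht1 : MeasurableSet[⨆ n, ℱ n] t := (iSup_mono hmF : (⨆ n, m n) ≤ ⨆ n, ℱ n) t ht
    have ht2 : MeasurableSet[mX] t := (iSup_le hm : (⨆ n, m n) ≤ mX) t ht
    obtain ⟨h1, h2⟩ := ae_eq_set.1 hst
    have e : s = (t \ (t \ s)) ∪ (s \ t) := by
      ext x; simp only [mem_union, mem_diff]; tauto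
    rw [e]
    exact (ht1.diff (hnull _ (ht2.diff hs) h2)).union (hnull _ (hs.diff ht2) h1)
  have h1 := hg.tendsto_eLpNorm_condExp (ℱ := ℱ) (hgm.mono htop)
  have h2 : ∀ n, μ[g | m n] =ᵐ[μ] μ[g | ℱ n] := by
    intro n
    refine ae_eq_condExp_of_forall_setIntegral_eq (ℱ.le n) hg
      (fun s _ _ => integrable_condExp.integrableOn) (fun s hs _ => ?_)
      (stronglyMeasurable_condExp.mono (hmF n)).aestronglyMeasurable
    obtain ⟨_, t, ht, hst⟩ := hs
    rw [setIntegral_congr_set hst, setIntegral_congr_set hst, setIntegral_condExp (hm n) hg ht]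
  have h3 := (ENNReal.tendsto_toReal ENNReal.zero_ne_top).comp h1
  refine h3.congr fun n => ?_
  simp only [Function.comp_apply]
  rw [eLpNorm_one_eq_lintegral_enorm, ← integral_norm_eq_lintegral_enorm
    (integrable_condExp.sub hg).1]
  refine integral_congr_ae ?_
  filter_upwards [h2 n] with x hx
  rw [hx]; rfl

lemma approx_circle {X : Type*} [mX : MeasurableSpace X] {μ : Measure X} [IsProbabilityMeasure μ]
    {Y : ℕ → Type*} [mY : ∀ n, MeasurableSpace (Y n)] {ν : ∀ n, Measure (Y n)}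
    {π : ∀ n, X → Y n} (hπ : ∀ n, MeasurePreserving (π n) μ (ν n))
    (hmono : ∀ n, ∀ A : Set (Y n), MeasurableSet A →
      ∃ B : Set (Y (n + 1)), MeasurableSet B ∧ (π n ⁻¹' A) =ᵐ[μ] (π (n + 1) ⁻¹' B))
    (hgen : ∀ s : Set X, MeasurableSet s →
      ∃ t, MeasurableSet[⨆ n, (mY n).comap (π n)] t ∧ s =ᵐ[μ] t)
    (f : X →ₘ[μ] TT) {ε : ℝ} (hε : 0 < ε) :
    ∃ n, ∃ R : Y n →ₘ[ν n] TT, del (f - kop (hπ n) R) < ε := by
  have hm : ∀ n, (mY n).comap (π n) ≤ mX := fun n => (hπ n).measurable.comap_le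
  have hmono' : ∀ n, ∀ s, MeasurableSet[(mY n).comap (π n)] s →
      ∃ t, MeasurableSet[(mY (n + 1)).comap (π (n + 1))] t ∧ s =ᵐ[μ] t := by
    rintro n _ ⟨A, hA, rfl⟩
    obtain ⟨B, hB, e⟩ := hmono n A hA
    exact ⟨_, ⟨B, hB, rfl⟩, e⟩
  have hF : StronglyMeasurable fun x => ex (f x) :=
    continuous_ex.comp_stronglyMeasurable f.stronglyMeasurable
  have hFi : Integrable (fun x => ex (f x)) μ := (memLp_ex f 1).integrable le_rfl
  have h1 := approx_real _ hm hmono' hgen (fun x => (ex (f x)).re) hFi.re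
    (Complex.continuous_re.comp_stronglyMeasurable hF)
  have h2 := approx_real _ hm hmono' hgen (fun x => (ex (f x)).im) hFi.im
    (Complex.continuous_im.comp_stronglyMeasurable hF)
  have h3 := (h1.add h2).const_mul 2
  simp only [add_zero, mul_zero] at h3
  obtain ⟨n, hn⟩ := (h3.eventually (gt_mem_nhds hε)).exists
  obtain ⟨a, ha, ea⟩ := (stronglyMeasurable_condExp (m := (mY n).comap (π n)) (μ := μ)
    (f := fun x => (ex (f x)).re)).exists_eq_measurable_comp
  obtain ⟨b, hb, eb⟩ := (stronglyMeasurable_condExp (m := (mY n).comap (π n)) (μ := μ)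
    (f := fun x => (ex (f x)).im)).exists_eq_measurable_comp
  have hme : AEStronglyMeasurable (fun y => sec ((a y : ℂ) + (b y : ℂ) * Complex.I)) (ν n) :=
    (measurable_sec.comp ((Complex.measurable_ofReal.comp ha.measurable).add
      ((Complex.measurable_ofReal.comp hb.measurable).mul_const _))).aestronglyMeasurable
  refine ⟨n, AEEqFun.mk _ hme, lt_of_le_of_lt ?_ hn⟩
  have i1 : Integrable (fun x => ‖(μ[fun x => (ex (f x)).re | (mY n).comap (π n)]) x -
      (ex (f x)).re‖) μ := (integrable_condExp.sub hFi.re).norm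
  have i2 : Integrable (fun x => ‖(μ[fun x => (ex (f x)).im | (mY n).comap (π n)]) x -
      (ex (f x)).im‖) μ := (integrable_condExp.sub hFi.im).norm
  rw [← integral_add i1 i2, ← integral_const_mul]
  refine integral_mono_ae (integrable_del _) ((i1.add i2).const_mul 2) ?_
  filter_upwards [AEEqFun.coeFn_sub f (kop (hπ n) (AEEqFun.mk _ hme)),
    coeFn_kop (hπ n) (AEEqFun.mk _ hme),
    (hπ n).quasiMeasurePreserving.ae (AEEqFun.coeFn_mk _ hme)] with x e1 e2 e3
  rw [e1, Pi.sub_apply, e2, e3, ex_sub, ea, eb]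
  set z : ℂ := (a (π n x) : ℂ) + (b (π n x) : ℂ) * Complex.I with hz
  have e4 : ex (f x) * conj (ex (sec z)) - 1 = (ex (f x) - ex (sec z)) * conj (ex (sec z)) := by
    have := ex_mul_conj (sec z)
    linear_combination this
  rw [e4, norm_mul, Complex.norm_conj, norm_ex, mul_one]
  refine (norm_ex_sub_ex_sec _ z).trans ?_
  gcongr
  refine (Complex.norm_le_abs_re_add_abs_im _).trans (le_of_eq ?_)
  simp [hz, abs_sub_comm]

end Pool.Agent.MP_a0be58_an

end
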