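import Pool.Agent.MP_a0be58_an.Mg.Approx

/-! Arithmetic of the moduli and frequencies used in the example. -/

open Filter Topology Set

namespace Pool.Agent.MP_a0be58_an

/-- The moduli: `1` followed by the primes. -/
noncomputable def qq : ℕ → ℕ
  | 0 => 1
  | n + 1 => Nat.nth Nat.Prime n

@[simp] lemma qq_zero : qq 0 = 1 := rfl

lemma qq_prime (n : ℕ) : (qq (n + 1)).Prime := Nat.prime_nth_prime n

lemma qq_pos (n : ℕ) : 0 < qq n := by
  cases n with
  | zero => exact one_pos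
  | succ n => exact (qq_prime n).pos

instance qq_neZero (n : ℕ) : NeZero (qq n) := ⟨(qq_pos n).ne'⟩

lemma qq_coprime {i j : ℕ} (h : i ≠ j) : Nat.Coprime (qq i) (qq j) := by
  cases i with
  | zero => exact Nat.coprime_one_left _
  | succ i =>
    cases j with
    | zero => exact Nat.coprime_one_right _
    | succ j =>
      refine (Nat.coprime_primes (qq_prime i) (qq_prime j)).2 fun e => h ?_
      have := Nat.nth_injective Nat.infinite_setOfPred_prime e
      rw [this]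

lemma qq_unbounded (b : ℕ) : ∃ n, (qq n).Prime ∧ b ≤ qq n :=
  ⟨b + 1, qq_prime b, Nat.le_nth fun h => absurd h Nat.infinite_setOfPred_prime⟩

/-- Integer linear combinations. -/
def lc {M : Type*} [AddCommGroup M] (m : ℕ →₀ ℤ) (v : ℕ → M) : M := m.sum fun n k => k • v n

section lc
variable {M M' : Type*} [AddCommGroup M] [AddCommGroup M']

lemma lc_add_left (m m' : ℕ →₀ ℤ) (v : ℕ → M) : lc (m + m') v = lc m v + lc m' v :=
  Finsupp.sum_add_index' (fun _ => zero_smul _ _) (fun _ _ _ => add_smul _ _ _)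

@[simp] lemma lc_zero_left (v : ℕ → M) : lc 0 v = 0 := Finsupp.sum_zero_index

lemma lc_neg_left (m : ℕ →₀ ℤ) (v : ℕ → M) : lc (-m) v = -lc m v := by
  rw [eq_neg_iff_add_eq_zero, ← lc_add_left]; simp

@[simp] lemma lc_single (n : ℕ) (k : ℤ) (v : ℕ → M) : lc (Finsupp.single n k) v = k • v n :=
  Finsupp.sum_single_index (zero_smul _ _)

lemma lc_add_right (m : ℕ →₀ ℤ) (v w : ℕ → M) :
    lc m (fun n => v n + w n) = lc m v + lc m w := by
  simp [lc, Finsupp.sum, Finset.sum_add_distrib]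

lemma lc_sub_right (m : ℕ →₀ ℤ) (v w : ℕ → M) :
    lc m (fun n => v n - w n) = lc m v - lc m w := by
  simp [lc, Finsupp.sum, smul_sub, Finset.sum_sub_distrib]

lemma lc_smul_right (m : ℕ →₀ ℤ) (k : ℤ) (v : ℕ → M) : lc m (fun n => k • v n) = k • lc m v := by
  simp only [lc, Finsupp.sum, Finset.smul_sum]
  exact Finset.sum_congr rfl fun n _ => smul_comm _ _ _

@[simp] lemma lc_zero_right (m : ℕ →₀ ℤ) : lc m (fun _ => (0 : M)) = 0 := by
  simp [lc, Finsupp.sum]

lemma lc_congr (m : ℕ →₀ ℤ) {v w : ℕ → M} (h : ∀ n ∈ m.support, v n = w n) : lc m v = lc m w :=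
  Finset.sum_congr rfl fun n hn => by simp only [h n hn]

lemma map_lc (φ : M →+ M') (m : ℕ →₀ ℤ) (v : ℕ → M) : φ (lc m v) = lc m (fun n => φ (v n)) := by
  simp [lc, Finsupp.sum, map_sum]

lemma lc_mem (S : AddSubgroup M) (m : ℕ →₀ ℤ) {v : ℕ → M} (h : ∀ n, v n ∈ S) : lc m v ∈ S :=
  S.sum_mem fun n _ => S.zsmul_mem (h n) _

lemma continuous_lc {Z : Type*} [TopologicalSpace Z] (m : ℕ →₀ ℤ) {F : ℕ → Z → TT}
    (h : ∀ n, Continuous (F n)) : Continuous fun z => lc m (fun n => F n z) :=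
  continuous_finsetSum _ fun n _ => (h n).zsmul _

/-- Shifted sequence. -/
def shf (v : ℕ → M) : ℕ → M
  | 0 => 0
  | n + 1 => v n

/-- Linear combination over the shifted coordinates. -/
def lin (γ : ℕ →₀ ℤ) (v : ℕ → M) : M := lc γ (shf v)

lemma lin_add_left (m m' : ℕ →₀ ℤ) (v : ℕ → M) : lin (m + m') v = lin m v + lin m' v :=
  lc_add_left _ _ _

@[simp] lemma lin_zero_left (v : ℕ → M) : lin 0 v = 0 := lc_zero_left _

@[simp] lemma lin_single_zero (k : ℤ) (v : ℕ → M) : lin (Finsupp.single 0 k) v = 0 := by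
  simp [lin, shf]

@[simp] lemma lin_single_succ (n : ℕ) (k : ℤ) (v : ℕ → M) :
    lin (Finsupp.single (n + 1) k) v = k • v n := by
  simp [lin, shf]

lemma lin_add_right (m : ℕ →₀ ℤ) (v w : ℕ → M) :
    lin m (fun n => v n + w n) = lin m v + lin m w := by
  rw [lin, lin, lin, ← lc_add_right]
  congr 1; funext n; cases n <;> simp [shf]

lemma lin_smul_right (m : ℕ →₀ ℤ) (k : ℤ) (v : ℕ → M) :
    lin m (fun n => k • v n) = k • lin m v := by
  rw [lin, lin, ← lc_smul_right]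
  congr 1; funext n; cases n <;> simp [shf]

lemma map_lin (φ : M →+ M') (m : ℕ →₀ ℤ) (v : ℕ → M) :
    φ (lin m v) = lin m (fun n => φ (v n)) := by
  rw [lin, lin, map_lc]
  congr 1; funext n; cases n <;> simp [shf]

lemma lin_mem (S : AddSubgroup M) (m : ℕ →₀ ℤ) {v : ℕ → M} (h : ∀ n, v n ∈ S) : lin m v ∈ S :=
  lc_mem S m fun n => by
    cases n with
    | zero => exact S.zero_mem
    | succ n => exact h n

lemma continuous_lin {Z : Type*} [TopologicalSpace Z] (m : ℕ →₀ ℤ) {F : ℕ → Z → TT}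
    (h : ∀ n, Continuous (F n)) : Continuous fun z => lin m (fun n => F n z) :=
  continuous_lc m (F := fun n z => shf (fun n => F n z) n) fun n => by
    cases n with
    | zero => exact continuous_const
    | succ n => exact h n

end lc

/-- The frequencies. -/
noncomputable def al (n : ℕ) : TT := (((√2 + 1 / qq n) / qq n : ℝ) : TT)

/-- The embedding of the cyclic group in the circle. -/
noncomputable def io (n : ℕ) : ZMod (qq n) →+ TT := ZMod.toAddCircle

/-- A `qq n`-th root of the square. -/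
noncomputable def sqr (n : ℕ) (z : ZMod (qq n)) : TT := (((z.val : ℝ) ^ 2 / (qq n) ^ 2 : ℝ) : TT)

/-- A point of the solenoid. -/
noncomputable def ust (n : ℕ) : TT := ((√2 / qq n : ℝ) : TT)

lemma qq_ne (n : ℕ) : (qq n : ℝ) ≠ 0 := by exact_mod_cast (qq_pos n).ne'

lemma io_injective (n : ℕ) : Function.Injective (io n) := ZMod.toAddCircle_injective _

lemma io_one (n : ℕ) : io n 1 = ((1 / qq n : ℝ) : TT) := by
  have := ZMod.toAddCircle_natCast (N := qq n) 1
  simpa [io] using this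

lemma io_zero_idx (z : ZMod (qq 0)) : io 0 z = 0 := by
  have : z = 0 := Subsingleton.elim (α := ZMod 1) _ _
  rw [this, map_zero]

lemma sqr_zero_idx (z : ZMod (qq 0)) : sqr 0 z = 0 := by
  have : z = 0 := Subsingleton.elim (α := ZMod 1) _ _
  simp [sqr, this]

lemma qq_smul_sqr (n : ℕ) (z : ZMod (qq n)) : qq n • sqr n z = io n (z ^ 2) := by
  have h := ZMod.toAddCircle_natCast (N := qq n) (z.val ^ 2)
  rw [Nat.cast_pow, ZMod.natCast_zmod_val] at h
  rw [io, h, sqr, ← AddCircle.coe_nsmul]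
  congr 1
  have := qq_ne n
  push_cast
  rw [nsmul_eq_mul]; field_simp

lemma qq_smul_al (n : ℕ) : qq n • al n - al 0 = io n 1 := by
  rw [io_one, al, al, ← AddCircle.coe_nsmul, ← AddCircle.coe_sub]
  have := qq_ne n
  have e : qq n • ((√2 + 1 / qq n) / qq n : ℝ) - (√2 + 1 / qq 0) / qq 0 = 1 / qq n - 1 := by
    rw [nsmul_eq_mul]; simp only [qq_zero, Nat.cast_one]; field_simp; ring
  rw [e, AddCircle.coe_sub, AddCircle.coe_period, sub_zero]

lemma qq_smul_ust (n : ℕ) : qq n • ust n = ust 0 := by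
  rw [ust, ust, ← AddCircle.coe_nsmul]
  congr 1
  have := qq_ne n
  rw [nsmul_eq_mul]; simp only [qq_zero, Nat.cast_one]; field_simp

lemma irr_ne (s t : ℚ) (hs : s ≠ 0) : ((√2 * s + t : ℝ) : TT) ≠ 0 := by
  intro h
  obtain ⟨n, hn⟩ := (AddCircle.coe_eq_zero_iff (1 : ℝ)).1 h
  refine irrational_sqrt_two ⟨(n - t) / s, ?_⟩
  have hs' : (s : ℝ) ≠ 0 := by exact_mod_cast hs
  simp only [zsmul_eq_mul, mul_one] at hn
  push_cast
  rw [hn]; field_simp; ring

/-- The slope of a combination. -/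
noncomputable def rr (m : ℕ →₀ ℤ) : ℚ := lc m fun n => (1 / qq n : ℚ)

lemma lc_al (m : ℕ →₀ ℤ) : ∃ t : ℚ, lc m al = ((√2 * rr m + t : ℝ) : TT) := by
  refine ⟨lc m fun n => (1 / qq n ^ 2 : ℚ), ?_⟩
  have h := map_lc (QuotientAddGroup.mk' (AddSubgroup.zmultiples (1 : ℝ))) m
    (fun n => ((√2 + 1 / qq n) / qq n : ℝ))
  have e : lc m al = ((lc m fun n => ((√2 + 1 / qq n) / qq n : ℝ) : ℝ) : TT) := h.symm
  rw [e]
  congr 1
  simp only [rr, lc, Finsupp.sum, Rat.cast_sum, Finset.mul_sum, ← Finset.sum_add_distrib]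
  refine Finset.sum_congr rfl fun n _ => ?_
  have := qq_ne n
  simp only [zsmul_eq_mul]
  push_cast
  field_simp

lemma smul_lc_al_ne (m : ℕ →₀ ℤ) (hm : rr m ≠ 0) (k : ℤ) (hk : k ≠ 0) : k • lc m al ≠ 0 := by
  obtain ⟨t, ht⟩ := lc_al m
  have := irr_ne (k * rr m) (k * t) (mul_ne_zero (by exact_mod_cast hk) hm)
  rw [ht, ← AddCircle.coe_zsmul]
  intro h; apply this; rw [← h]; congr 1; push_cast; simp only [zsmul_eq_mul]; ring

lemma smul_al_ne (k : ℤ) (hk : k ≠ 0) : k • al 0 ≠ 0 := by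
  have := smul_lc_al_ne (Finsupp.single 0 1) (by simp [rr]) k hk
  simpa using this

lemma smul_ust_ne (k : ℤ) (hk : k ≠ 0) : k • ust 0 ≠ 0 := by
  have := irr_ne k 0 (by exact_mod_cast hk)
  rw [ust, ← AddCircle.coe_zsmul]
  intro h; apply this; rw [← h]; congr 1; simp; ring

lemma zsmul_io_eq_zero (n : ℕ) {k : ℤ} (h : (qq n : ℤ) ∣ k) (z : ZMod (qq n)) : k • io n z = 0 := by
  rw [← map_zsmul, zsmul_eq_mul, (ZMod.intCast_zmod_eq_zero_iff_dvd k (qq n)).2 h, zero_mul,
    map_zero]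

lemma dvd_of_lc_io (m : ℕ →₀ ℤ) (N : ℕ) (h : (N : ℤ) • lc m (fun n => io n 1) = 0) (n : ℕ)
    (hN : Nat.Coprime (qq n) N) : (qq n : ℤ) ∣ m n := by
  classical
  let D : ℕ := ∏ j ∈ m.support.erase n, qq j
  have hD : Nat.Coprime (qq n) D :=
    Nat.Coprime.prod_right fun j hj => qq_coprime (Finset.ne_of_mem_erase hj).symm
  have h1 : ((D : ℤ) * N) • lc m (fun n => io n 1) = 0 := by rw [mul_smul, h, smul_zero]
  rw [← lc_smul_right, lc, Finsupp.sum_eq_single n] at h1
  · rw [smul_smul, ← map_zsmul, zsmul_eq_mul, mul_one, map_eq_zero_iff _ (io_injective n),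
      ZMod.intCast_zmod_eq_zero_iff_dvd] at h1
    refine IsCoprime.dvd_of_dvd_mul_right ?_ h1
    have := Nat.isCoprime_iff_coprime.2 (Nat.Coprime.mul_right hD hN)
    simpa using this
  · intro j hj hjn
    have hd : (qq j : ℤ) ∣ (D : ℤ) * N := by
      refine Dvd.dvd.mul_right ?_ _
      exact_mod_cast Finset.dvd_prod_of_mem qq
        (Finset.mem_erase.2 ⟨hjn, Finsupp.mem_support_iff.2 hj⟩)
    rw [zsmul_io_eq_zero j hd, smul_zero]
  · intro _; simp

lemma reduce_of_rr (m : ℕ →₀ ℤ) (h : rr m = 0) :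
    ∃ m' : ℕ →₀ ℤ, ∀ v : ℕ → TT, lc m v = lc m' fun n => qq n • v n - v 0 := by
  have h1 : lc m (fun n => io n 1) = 0 := by
    have e := map_lc (QuotientAddGroup.mk' (AddSubgroup.zmultiples (1 : ℝ))) m
      (fun n => (1 / qq n : ℝ))
    have e2 := map_lc (Rat.castHom ℝ).toAddMonoidHom m (fun n => (1 / qq n : ℚ))
    have e3 : lc m (fun n => (1 / qq n : ℝ)) = 0 := by
      have : (Rat.castHom ℝ).toAddMonoidHom (rr m) = lc m (fun n => (1 / qq n : ℝ)) := by
        rw [rr, e2]; simp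
      rw [← this, h, map_zero]
    rw [e3, map_zero] at e
    simp only [io_one]
    exact e.symm
  have h2 : ∀ n, (qq n : ℤ) ∣ m n := fun n =>
    dvd_of_lc_io m 1 (by rw [h1, smul_zero]) n (Nat.coprime_one_right _)
  let m' : ℕ →₀ ℤ := Finsupp.onFinset m.support (fun n => m n / qq n) (fun n hn => by
    rw [Finsupp.mem_support_iff]; intro h0; simp [h0] at hn)
  have hm' : ∀ n, m n = m' n * qq n := fun n => (Int.ediv_mul_cancel (h2 n)).symm
  have hsupp : m'.support = m.support := by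
    ext n
    simp only [Finsupp.mem_support_iff]
    rw [hm' n]
    have : qq n ≠ 0 := (qq_pos n).ne'
    simp [this]
  have hsum : ∑ n ∈ m.support, m' n = 0 := by
    have : ((∑ n ∈ m.support, m' n : ℤ) : ℚ) = rr m := by
      simp only [rr, lc, Finsupp.sum, Int.cast_sum]
      refine Finset.sum_congr rfl fun n _ => ?_
      have : (qq n : ℚ) ≠ 0 := by exact_mod_cast (qq_pos n).ne'
      rw [hm' n, zsmul_eq_mul]; push_cast; field_simp
    rw [h] at this
    exact_mod_cast this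
  refine ⟨m', fun v => ?_⟩
  rw [lc_sub_right]
  have e1 : lc m' (fun _ => v 0) = 0 := by
    rw [lc, Finsupp.sum, hsupp, ← Finset.sum_smul, hsum, zero_smul]
  rw [e1, sub_zero, lc, lc, Finsupp.sum, Finsupp.sum, hsupp]
  refine Finset.sum_congr rfl fun n _ => ?_
  rw [hm' n, mul_smul, natCast_zsmul]

lemma lc_io_single (m : ℕ →₀ ℤ) (n₀ : ℕ)
    (h : ((qq n₀ ^ 2 : ℕ) : ℤ) • lc m (fun n => io n 1) = 0) (z : ∀ n, ZMod (qq n)) :
    lc m (fun n => io n (z n)) = m n₀ • io n₀ (z n₀) := by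
  classical
  rw [lc, Finsupp.sum_eq_single n₀]
  · intro j _ hj
    exact zsmul_io_eq_zero j (dvd_of_lc_io m _ h j
      (Nat.Coprime.pow_right 2 (qq_coprime hj))) _
  · intro _; simp

end Pool.Agent.MP_a0be58_an
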