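import Pool.Agent.MP_a0be58_an.Mg.Arith
import Pool.Agent.MP_a0be58_an.Defs
import Pool.Agent.MP_a0be58_an.Mg.Approx
import Pool.Agent.MP_a0be58_an.Uniq

-- part MP_a0be58_an.Space
section

/-! The example: the space, the measure and the action. -/

open MeasureTheory Filter Topology Set
open scoped ENNReal

namespace Pool.Agent.MP_a0be58_an

set_option synthInstance.maxSize 4096

/-- Normalised Haar measure. -/
noncomputable def haarP (K : Type) [AddCommGroup K] [TopologicalSpace K] [IsTopologicalAddGroup K]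
    [CompactSpace K] [MeasurableSpace K] [BorelSpace K] : Measure K :=
  Measure.addHaarMeasure ⊤

section
variable (K : Type) [AddCommGroup K] [TopologicalSpace K] [IsTopologicalAddGroup K]
    [CompactSpace K] [MeasurableSpace K] [BorelSpace K]

instance haarP_prob : IsProbabilityMeasure (haarP K) :=
  ⟨by simpa [haarP] using Measure.addHaarMeasure_self (G := K) (K₀ := ⊤)⟩

instance haarP_left : (haarP K).IsAddLeftInvariant :=
  Measure.isAddLeftInvariant_addHaarMeasure _

end

/-- The Kronecker factor of the base. -/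
def Zb : AddSubgroup ((ℕ → TT) × (∀ n, ZMod (qq n))) where
  carrier := {p | ∀ n, qq n • p.1 n - p.1 0 = io n (p.2 n)}
  zero_mem' := fun n => by simp
  add_mem' := fun {a b} ha hb n => by
    simp only [Prod.fst_add, Prod.snd_add, Pi.add_apply, map_add, ← ha n, ← hb n, smul_add]; abel
  neg_mem' := fun {a} ha n => by
    simp only [Prod.fst_neg, Prod.snd_neg, Pi.neg_apply, map_neg, ← ha n, smul_neg]; abel

/-- The solenoid. -/
def Us : AddSubgroup (ℕ → TT) where
  carrier := {u | ∀ n, qq n • u n = u 0}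
  zero_mem' := fun n => by simp
  add_mem' := fun {a b} ha hb n => by
    simp only [Pi.add_apply, smul_add, ha n, hb n]
  neg_mem' := fun {a} ha n => by
    simp only [Pi.neg_apply, smul_neg, ha n]

lemma continuous_io (n : ℕ) : Continuous (io n) := continuous_of_discreteTopology

lemma continuous_sqr (n : ℕ) : Continuous (sqr n) := continuous_of_discreteTopology

lemma isClosed_Zb : IsClosed (Zb : Set ((ℕ → TT) × (∀ n, ZMod (qq n)))) := by
  have : (Zb : Set ((ℕ → TT) × (∀ n, ZMod (qq n)))) =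
    ⋂ n, {p | qq n • p.1 n - p.1 0 = io n (p.2 n)} := by
    ext p; simp only [mem_iInter]; rfl
  rw [this]
  exact isClosed_iInter fun n => isClosed_eq (by fun_prop)
    ((continuous_io n).comp (by fun_prop))

lemma isClosed_Us : IsClosed (Us : Set (ℕ → TT)) := by
  have : (Us : Set (ℕ → TT)) = ⋂ n, {u | qq n • u n = u 0} := by
    ext p; simp only [mem_iInter]; rfl
  rw [this]
  exact isClosed_iInter fun n => isClosed_eq (by fun_prop) (by fun_prop)

instance : CompactSpace Zb := isCompact_iff_compactSpace.1 isClosed_Zb.isCompact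
instance : CompactSpace Us := isCompact_iff_compactSpace.1 isClosed_Us.isCompact
instance : BorelSpace Zb := Subtype.borelSpace (Zb : Set ((ℕ → TT) × (∀ n, ZMod (qq n))))
instance : BorelSpace Us := Subtype.borelSpace (Us : Set (ℕ → TT))
instance : PolishSpace Zb := isClosed_Zb.polishSpace
instance : PolishSpace Us := isClosed_Us.polishSpace

/-- The phase space. -/
abbrev XX : Type := (((Zb × Us) × TT) × TT) × TT

/-- The invariant measure. -/
noncomputable def muX : Measure XX :=
  ((((haarP Zb).prod (haarP Us)).prod (haarP TT)).prod (haarP TT)).prod (haarP TT)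

instance : IsProbabilityMeasure muX := by unfold muX; infer_instance

instance : StandardBorelSpace Zb := inferInstance
instance : StandardBorelSpace Us := inferInstance
instance : MeasurableAdd Zb := inferInstance
instance : MeasurableAdd Us := inferInstance
instance : MeasurableAdd (Zb × Us) := inferInstance
instance : MeasurableAdd ((Zb × Us) × TT) := inferInstance
instance : MeasurableAdd (((Zb × Us) × TT) × TT) := inferInstance

instance : muX.IsAddLeftInvariant := by
  have h1 : ((haarP Zb).prod (haarP Us)).IsAddLeftInvariant := inferInstance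
  have h2 : (((haarP Zb).prod (haarP Us)).prod (haarP TT)).IsAddLeftInvariant := inferInstance
  have h3 : ((((haarP Zb).prod (haarP Us)).prod (haarP TT)).prod
    (haarP TT)).IsAddLeftInvariant := inferInstance
  unfold muX; infer_instance

/-- The rotation vector. -/
noncomputable def alz : Zb := ⟨(al, fun _ => 1), qq_smul_al⟩

/-- A point of the solenoid. -/
noncomputable def ustz : Us := ⟨ust, qq_smul_ust⟩

/-- The cocycle. -/
noncomputable def rho (y : ℤ) (z : Zb) : Us :=
  ⟨fun n => sqr n (z.1.2 n) + (2 * y) • z.1.1 n + (y ^ 2) • al n - sqr n (z.1.2 n + y), fun n => by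
    have h1 : qq n • z.1.1 n = z.1.1 0 + io n (z.1.2 n) := by rw [← z.2 n]; abel
    have h2 : qq n • al n = al 0 + io n 1 := by rw [← qq_smul_al n]; abel
    have h3 : io n ((z.1.2 n + y) ^ 2) =
        io n (z.1.2 n ^ 2) + (2 * y) • io n (z.1.2 n) + (y ^ 2) • io n 1 := by
      rw [← map_zsmul, ← map_zsmul, ← map_add, ← map_add]
      congr 1
      simp only [zsmul_eq_mul]; push_cast; ring
    simp only [smul_sub, smul_add, qq_smul_sqr, sqr_zero_idx]
    rw [smul_comm (qq n) (2 * y), smul_comm (qq n) (y ^ 2), h1, h2, h3]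
    module⟩

lemma continuous_rho (y : ℤ) : Continuous (rho y) := by
  refine Continuous.subtype_mk (continuous_pi fun n => ?_) _
  have h1 : Continuous fun z : Zb => z.1.2 n := by fun_prop
  have h2 : Continuous fun z : Zb => z.1.1 n := by fun_prop
  exact ((((continuous_sqr n).comp h1).add (h2.zsmul _)).add continuous_const).sub
    ((continuous_sqr n).comp (h1.add continuous_const))

/-- Quadratic coordinate on the base. -/
noncomputable def Qb (n : ℕ) (b : Zb × Us) : TT := b.2.1 n + sqr n (b.1.1.2 n)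

lemma continuous_Qb (n : ℕ) : Continuous (Qb n) :=
  Continuous.add ((continuous_apply n).comp (continuous_subtype_val.comp continuous_snd))
    ((continuous_sqr n).comp (by fun_prop))

/-- Shift of the second fibre coordinate. -/
noncomputable def gc (γ : Zw) (p : (Zb × Us) × TT) : TT :=
  lin γ (fun n => p.1.1.1.1 n) + γ 0 • (p.2 + lin γ al)

/-- Shift of the third fibre coordinate. -/
noncomputable def gf (γ : Zw) (p : ((Zb × Us) × TT) × TT) : TT :=
  lin γ (fun n => Qb n p.1.1) + (2 * γ 0) • (p.2 + lin γ (fun n => p.1.1.1.1.1 n)) +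
    (γ 0 ^ 2) • (p.1.2 + lin γ al)

lemma continuous_gc (γ : Zw) : Continuous (gc γ) :=
  (continuous_lin γ (F := fun n (p : (Zb × Us) × TT) => p.1.1.1.1 n) fun n => by fun_prop).add
    (by fun_prop)

lemma continuous_gf (γ : Zw) : Continuous (gf γ) :=
  ((continuous_lin γ (F := fun n (p : ((Zb × Us) × TT) × TT) => Qb n p.1.1)
    fun n => (continuous_Qb n).comp (by fun_prop)).add
    ((continuous_snd.add (continuous_lin γ
      (F := fun n (p : ((Zb × Us) × TT) × TT) => p.1.1.1.1.1 n) fun n => by fun_prop)).zsmul _)).add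
    (by fun_prop)

/-- The action. -/
noncomputable def step (γ : Zw) (x : XX) : XX :=
  ((((x.1.1.1.1 + γ 0 • alz, x.1.1.1.2 + rho (γ 0) x.1.1.1.1), x.1.1.2 + lin γ al),
    x.1.2 + gc γ x.1.1), x.2 + gf γ x.1)

lemma continuous_step (γ : Zw) : Continuous (step γ) := by
  have h1 := continuous_rho (γ 0)
  have h2 := continuous_gc γ
  have h3 := continuous_gf γ
  unfold step
  fun_prop

lemma mp_step (γ : Zw) : MeasurePreserving (step γ) muX muX := by
  have h1 := continuous_rho (γ 0)
  have h2 := continuous_gc γ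
  have h3 := continuous_gf γ
  have s0 : MeasurePreserving (fun z : Zb => z + γ 0 • alz) (haarP Zb) (haarP Zb) :=
    measurePreserving_add_right _ _
  have s1 := s0.skew_product (μc := haarP Us) (μd := haarP Us)
    (g := fun z u => u + rho (γ 0) z) (Continuous.measurable (by unfold Function.uncurry; fun_prop))
    (Eventually.of_forall fun z => map_add_right_eq_self _ _)
  have s2 := s1.skew_product (μc := haarP TT) (μd := haarP TT)
    (g := fun _ a => a + lin γ al) (Continuous.measurable (by unfold Function.uncurry; fun_prop))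
    (Eventually.of_forall fun z => map_add_right_eq_self _ _)
  have s3 := s2.skew_product (μc := haarP TT) (μd := haarP TT)
    (g := fun p c => c + gc γ p) (Continuous.measurable (by unfold Function.uncurry; fun_prop))
    (Eventually.of_forall fun z => map_add_right_eq_self _ _)
  have s4 := s3.skew_product (μc := haarP TT) (μd := haarP TT)
    (g := fun p f => f + gf γ p) (Continuous.measurable (by unfold Function.uncurry; fun_prop))
    (Eventually.of_forall fun z => map_add_right_eq_self _ _)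
  exact s4

/-- Coordinates. -/
def LL (n : ℕ) (x : XX) : TT := x.1.1.1.1.1.1 n
/-- Coordinates. -/
def ze (n : ℕ) (x : XX) : ZMod (qq n) := x.1.1.1.1.1.2 n
/-- Coordinates. -/
def uu (n : ℕ) (x : XX) : TT := x.1.1.1.2.1 n
/-- Coordinates. -/
def aa (x : XX) : TT := x.1.1.2
/-- Coordinates. -/
def cc (x : XX) : TT := x.1.2
/-- Coordinates. -/
def ff (x : XX) : TT := x.2
/-- Coordinates. -/
noncomputable def QQ (n : ℕ) (x : XX) : TT := uu n x + sqr n (ze n x)

lemma continuous_LL (n : ℕ) : Continuous (LL n) := by unfold LL; fun_prop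
lemma continuous_ze (n : ℕ) : Continuous (ze n) := by unfold ze; fun_prop
lemma continuous_uu (n : ℕ) : Continuous (uu n) :=
  (continuous_apply n).comp (continuous_subtype_val.comp (by fun_prop))
lemma continuous_aa : Continuous aa := by unfold aa; fun_prop
lemma continuous_cc : Continuous cc := by unfold cc; fun_prop
lemma continuous_ff : Continuous ff := by unfold ff; fun_prop
lemma continuous_QQ (n : ℕ) : Continuous (QQ n) :=
  (continuous_uu n).add ((continuous_sqr n).comp (continuous_ze n))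

lemma LL_rel (n : ℕ) (x : XX) : qq n • LL n x - LL 0 x = io n (ze n x) := x.1.1.1.1.2 n

lemma uu_rel (n : ℕ) (x : XX) : qq n • uu n x = uu 0 x := x.1.1.1.2.2 n

lemma QQ_zero (x : XX) : QQ 0 x = uu 0 x := by rw [QQ, sqr_zero_idx, add_zero]

lemma QQ_rel (n : ℕ) (x : XX) : qq n • QQ n x - QQ 0 x = io n (ze n x ^ 2) := by
  rw [QQ_zero, QQ, smul_add, uu_rel, qq_smul_sqr]; abel

lemma LL_step (n : ℕ) (γ : Zw) (x : XX) : LL n (step γ x) = LL n x + γ 0 • al n := rfl

lemma ze_step (n : ℕ) (γ : Zw) (x : XX) : ze n (step γ x) = ze n x + (γ 0 : ℤ) := by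
  show ze n x + γ 0 • (1 : ZMod (qq n)) = _
  simp

lemma uu_step (n : ℕ) (γ : Zw) (x : XX) : uu n (step γ x) = uu n x + (sqr n (ze n x) +
    (2 * γ 0) • LL n x + (γ 0 ^ 2) • al n - sqr n (ze n x + (γ 0 : ℤ))) := rfl

lemma QQ_step (n : ℕ) (γ : Zw) (x : XX) :
    QQ n (step γ x) = QQ n x + (2 * γ 0) • LL n x + (γ 0 ^ 2) • al n := by
  rw [QQ, QQ, uu_step, ze_step]; abel

lemma aa_step (γ : Zw) (x : XX) : aa (step γ x) = aa x + lin γ al := rfl

lemma cc_step (γ : Zw) (x : XX) :
    cc (step γ x) = cc x + (lin γ (fun n => LL n x) + γ 0 • (aa x + lin γ al)) := rfl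

lemma ff_step (γ : Zw) (x : XX) :
    ff (step γ x) = ff x + (lin γ (fun n => QQ n x) +
      (2 * γ 0) • (cc x + lin γ (fun n => LL n x)) + (γ 0 ^ 2) • (aa x + lin γ al)) := rfl

lemma XX_ext {x y : XX} (hL : ∀ n, LL n x = LL n y) (hu : ∀ n, uu n x = uu n y)
    (ha : aa x = aa y) (hc : cc x = cc y) (hf : ff x = ff y) : x = y := by
  have hz : ∀ n, ze n x = ze n y := fun n => io_injective n (by
    rw [← LL_rel, ← LL_rel, hL, hL])
  refine Prod.ext (Prod.ext (Prod.ext (Prod.ext (Subtype.ext (Prod.ext (funext hL) (funext hz)))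
    (Subtype.ext (funext hu))) ha) hc) hf

lemma XX_ext' {x y : XX} (hL : ∀ n, LL n x = LL n y) (hQ : ∀ n, QQ n x = QQ n y)
    (ha : aa x = aa y) (hc : cc x = cc y) (hf : ff x = ff y) : x = y := by
  have hz : ∀ n, ze n x = ze n y := fun n => io_injective n (by
    rw [← LL_rel, ← LL_rel, hL, hL])
  refine XX_ext hL (fun n => ?_) ha hc hf
  have := hQ n
  rw [QQ, QQ, hz] at this
  exact add_right_cancel this

noncomputable instance actXX : AddAction Zw XX where
  vadd := step
  zero_vadd x := by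
    show step 0 x = x
    refine XX_ext' (fun n => ?_) (fun n => ?_) ?_ ?_ ?_
    · simp [LL_step]
    · simp [QQ_step]
    · simp [aa_step]
    · simp [cc_step]
    · simp [ff_step]
  add_vadd γ γ' x := by
    show step (γ + γ') x = step γ (step γ' x)
    refine XX_ext' (fun n => ?_) (fun n => ?_) ?_ ?_ ?_
    · simp only [LL_step, Finsupp.add_apply]; module
    · simp only [QQ_step, LL_step, Finsupp.add_apply]; module
    · simp only [aa_step, lin_add_left]; module
    · simp only [cc_step, aa_step, LL_step, lin_add_left, lin_add_right, lin_smul_right,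
        Finsupp.add_apply]
      module
    · simp only [ff_step, cc_step, aa_step, LL_step, QQ_step, lin_add_left, lin_add_right,
        lin_smul_right, Finsupp.add_apply]
      module

lemma vadd_eq (γ : Zw) (x : XX) : γ +ᵥ x = step γ x := rfl

instance : MeasurableConstVAdd Zw XX := ⟨fun γ => (continuous_step γ).measurable⟩

instance : VAddInvariantMeasure Zw XX muX :=
  ⟨fun γ _ hs => (mp_step γ).measure_preimage hs.nullMeasurableSet⟩

instance instSB : StandardBorelSpace XX := inferInstance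
instance instBo : BorelSpace XX := inferInstance
instance instCo : CompactSpace XX := inferInstance
instance instSC : SecondCountableTopology XX := inferInstance
instance instT2 : T2Space XX := inferInstance
instance instMA : MeasurableAdd XX := inferInstance

end Pool.Agent.MP_a0be58_an

end

-- part MP_a0be58_an.Order
section

/-! Mean ergodic inequality, total families, and systems spanned by phase polynomials. -/

open MeasureTheory Filter Topology Set
open scoped ENNReal ComplexConjugate InnerProductSpace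

namespace Pool.Agent.MP_a0be58_an

set_option linter.unusedSectionVars false

section MET
variable {E : Type*} [NormedAddCommGroup E] [InnerProductSpace ℂ E] [CompleteSpace E]

lemma norm_sum_sub_sum_le (s t : Finset Zw) (v : Zw → E) (B : ℝ) (hv : ∀ γ, ‖v γ‖ ≤ B) :
    ‖∑ γ ∈ s, v γ - ∑ γ ∈ t, v γ‖ ≤ (symmDiff s t).card * B := by
  rw [← Finset.sum_sdiff_sub_sum_sdiff, symmDiff_def, Finset.sup_eq_union,
    Finset.card_union_of_disjoint disjoint_sdiff_sdiff]
  refine (norm_sub_le _ _).trans ?_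
  have h : ∀ u : Finset Zw, ‖∑ γ ∈ u, v γ‖ ≤ u.card * B := fun u =>
    (norm_sum_le _ _).trans (by
      simpa using Finset.sum_le_card_nsmul u (fun γ => ‖v γ‖) B (fun γ _ => hv γ))
  push_cast
  linarith [h (s \ t), h (t \ s)]

lemma met (U : Zw → E →ₗᵢ[ℂ] E) (hadd : ∀ γ γ' v, U (γ + γ') v = U γ' (U γ v))
    {Φ : ℕ → Finset Zw} (hΦ : IsFolner Φ) (v w : E) (hw : ∀ γ, U γ w = w) (hw1 : ‖w‖ = 1) :
    ∃ r : ℝ, ‖⟪w, v⟫_ℂ‖ ^ 2 ≤ r ∧
      Tendsto (fun n => (∑ γ ∈ Φ n, ⟪v, U γ v⟫_ℂ) / ((Φ n).card : ℂ)) atTop (𝓝 (r : ℂ)) := by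
  let A : ℕ → E →L[ℂ] E := fun n =>
    (((Φ n).card : ℂ)⁻¹) • ∑ γ ∈ Φ n, (U γ).toContinuousLinearMap
  have hA : ∀ n u, A n u = (((Φ n).card : ℂ)⁻¹) • ∑ γ ∈ Φ n, U γ u := by
    intro n u; simp [A, ContinuousLinearMap.sum_apply]
  have hcard : ∀ n, (0 : ℝ) < (Φ n).card := fun n => by exact_mod_cast (hΦ.1 n).card_pos
  have hAn : ∀ n u, ‖A n u‖ ≤ ‖u‖ := by
    intro n u
    rw [hA, norm_smul, norm_inv, Complex.norm_natCast, inv_mul_le_iff₀ (hcard n)]
    refine (norm_sum_le _ _).trans ?_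
    simp
  let K : Submodule ℂ E := Submodule.span ℂ {u | ∃ γ h, u = U γ h - h}
  have hK0 : ∀ u ∈ K, Tendsto (fun n => A n u) atTop (𝓝 0) := by
    intro u hu
    induction hu using Submodule.span_induction with
    | mem u hu =>
      obtain ⟨γ, h, rfl⟩ := hu
      rw [tendsto_zero_iff_norm_tendsto_zero]
      have := (hΦ.2 γ).mul_const ‖h‖
      rw [zero_mul] at this
      refine squeeze_zero (fun _ => norm_nonneg _) (fun n => ?_) this
      rw [hA, norm_smul, norm_inv, Complex.norm_natCast, inv_mul_le_iff₀ (hcard n)]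
      have e : ∑ γ' ∈ Φ n, U γ' (U γ h - h) =
          ∑ γ' ∈ (Φ n).image (fun x => γ + x), U γ' h - ∑ γ' ∈ Φ n, U γ' h := by
        rw [Finset.sum_image (fun _ _ _ _ h => add_left_cancel h), ← Finset.sum_sub_distrib]
        refine Finset.sum_congr rfl fun x _ => ?_
        rw [map_sub, hadd]
      rw [e]
      refine (norm_sum_sub_sum_le _ _ _ ‖h‖ (fun γ => by simp)).trans (le_of_eq ?_)
      have := (hcard n).ne'
      field_simp
    | zero => simpa using tendsto_const_nhds
    | add x y _ _ hx hy => simpa using hx.add hy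
    | smul a x _ hx => simpa using hx.const_smul a
  have hK1 : ∀ u ∈ K.topologicalClosure, Tendsto (fun n => A n u) atTop (𝓝 0) := by
    intro u hu
    rw [Metric.tendsto_atTop]
    intro ε hε
    obtain ⟨u', hu', hd⟩ := Metric.mem_closure_iff.1 hu (ε / 2) (by linarith)
    obtain ⟨N, hN⟩ := Metric.tendsto_atTop.1 (hK0 u' hu') (ε / 2) (by linarith)
    refine ⟨N, fun n hn => ?_⟩
    have h1 := hN n hn
    rw [dist_zero_right] at *
    have h2 := hAn n (u - u')
    rw [dist_eq_norm] at hd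
    calc ‖A n u‖ = ‖A n (u - u') + A n u'‖ := by rw [map_sub]; simp
      _ ≤ ‖A n (u - u')‖ + ‖A n u'‖ := norm_add_le _ _
      _ < ε := by linarith
  let v₀ : E := Kᗮ.starProjection v
  have hv₀ : v₀ ∈ Kᗮ := Submodule.starProjection_apply_mem _ _
  have hv₁ : v - v₀ ∈ Kᗮᗮ := Submodule.sub_starProjection_mem_orthogonal v
  have hinv : ∀ γ, U γ v₀ = v₀ := by
    intro γ
    refine eq_of_norm_le_re_inner_eq_norm_sq (𝕜 := ℂ) (by simp) ?_
    have := hv₀ (U γ v₀ - v₀) (Submodule.subset_span ⟨γ, v₀, rfl⟩)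
    rw [inner_sub_left, sub_eq_zero] at this
    rw [this, inner_self_eq_norm_sq]
  have hwK : w ∈ Kᗮ := by
    intro u hu
    induction hu using Submodule.span_induction with
    | mem u hu =>
      obtain ⟨γ, h, rfl⟩ := hu
      rw [inner_sub_left, sub_eq_zero]
      conv_lhs => rw [← hw γ]
      exact (U γ).inner_map_map h w
    | zero => simp
    | add x y _ _ hx hy => rw [inner_add_left, hx, hy, add_zero]
    | smul a x _ hx => rw [inner_smul_left, hx, mul_zero]
  have hAv₀ : ∀ n, A n v₀ = v₀ := by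
    intro n
    rw [hA]
    simp only [hinv, Finset.sum_const]
    rw [← Nat.cast_smul_eq_nsmul ℂ, smul_smul, inv_mul_cancel₀ (by exact_mod_cast (hcard n).ne'),
      one_smul]
  have hlim : Tendsto (fun n => A n v) atTop (𝓝 v₀) := by
    have h1 := hK1 (v - v₀) (by rwa [← Submodule.orthogonal_orthogonal_eq_closure])
    have h2 := h1.add_const v₀
    simp only [map_sub, hAv₀, sub_add_cancel, zero_add] at h2
    exact h2
  refine ⟨‖v₀‖ ^ 2, ?_, ?_⟩
  · have h1 : ⟪w, v - v₀⟫_ℂ = 0 := hv₁ w hwK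
    rw [inner_sub_right, sub_eq_zero] at h1
    rw [h1]
    have := norm_inner_le_norm (𝕜 := ℂ) w v₀
    rw [hw1, one_mul] at this
    gcongr
  · have h1 : ⟪v₀, v - v₀⟫_ℂ = 0 := hv₁ v₀ hv₀
    have h2 : ⟪v, v₀⟫_ℂ = ((‖v₀‖ ^ 2 : ℝ) : ℂ) := by
      rw [← inner_conj_symm, inner_sub_left, map_sub, sub_eq_zero, inner_conj_symm,
        inner_conj_symm] at h1
      rw [← inner_conj_symm, h1, inner_self_eq_norm_sq_to_K]; simp
    have h3 := Filter.Tendsto.inner (𝕜 := ℂ) (tendsto_const_nhds (x := v)) hlim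
    rw [h2] at h3
    refine h3.congr fun n => ?_
    rw [hA, inner_smul_right, inner_sum, div_eq_inv_mul]

end MET

section Sys
variable {X : Type} [MeasurableSpace X] [AddAction Zw X] [MeasurableConstVAdd Zw X]
  {μ : Measure X} [IsProbabilityMeasure μ] [VAddInvariantMeasure Zw X μ]

/-- The Koopman operators of the system on circle valued functions. -/
noncomputable def DX (μ : Measure X) [VAddInvariantMeasure Zw X μ] (γ : Zw) :
    (X →ₘ[μ] TT) →+ (X →ₘ[μ] TT) := kop (measurePreserving_vadd γ μ)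

lemma ghk_congr (Φ : ℕ → Finset Zw) : ∀ (k : ℕ) (f g : X → ℂ), f =ᵐ[μ] g →
    ghkPow μ Φ k f = ghkPow μ Φ k g := by
  intro k
  induction k with
  | zero => intro f g h; simp only [ghkPow, integral_congr_ae h]
  | succ k ih =>
    intro f g h
    simp only [ghkPow]
    congr 1
    funext n
    congr 1
    refine Finset.sum_congr rfl fun γ _ => ih _ _ ?_
    filter_upwards [h, (measurePreserving_vadd γ μ).quasiMeasurePreserving.ae h] with x h1 h2
    rw [h1, h2]

lemma ghk_mul_ex
    (herg : ∀ g : X → ℂ, MemLp g 2 μ → (∀ γ : Zw, ∀ᵐ x ∂μ, g (γ +ᵥ x) = g x) →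
      ∃ c, ∀ᵐ x ∂μ, g x = c)
    (Φ : ℕ → Finset Zw) : ∀ (k : ℕ) (f : X → ℂ) (P : X →ₘ[μ] TT), Pol (DX μ) (k + 1) P →
    ghkPow μ Φ k (fun x => f x * ex (P x)) = ghkPow μ Φ k f := by
  intro k
  induction k with
  | zero =>
    intro f P hP
    obtain ⟨c, hc⟩ := herg _ (memLp_ex P 2) (fun γ => by
      have h : DX μ γ P - P = 0 := hP γ
      rw [sub_eq_zero] at h
      filter_upwards [coeFn_kop (measurePreserving_vadd γ μ) P] with x hx
      rw [← hx]; exact congrArg (fun R : X →ₘ[μ] TT => ex (R x)) h)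
    have hc1 : ‖c‖ = 1 := by
      obtain ⟨x, hx⟩ := hc.exists
      rw [← hx, norm_ex]
    simp only [ghkPow]
    rw [integral_congr_ae (g := fun x => f x * c) (hc.mono fun x hx => by simp only [hx]),
      integral_mul_const, enorm_mul, ← ofReal_norm_eq_enorm c, hc1]
    simp
  | succ k ih =>
    intro f P hP
    simp only [ghkPow]
    congr 1
    funext n
    congr 1
    refine Finset.sum_congr rfl fun γ _ => ?_
    rw [← ih (fun x => f (γ +ᵥ x) * conj (f x)) _ (hP γ)]
    refine ghk_congr Φ k _ _ ?_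
    filter_upwards [AEEqFun.coeFn_sub (DX μ γ P) P, coeFn_kop (measurePreserving_vadd γ μ) P]
      with x h1 h2
    rw [h1, Pi.sub_apply, DX, h2, ex_sub]
    simp; ring

lemma memLp_top_delta {g : X → ℂ} (hg : MemLp g ∞ μ) (γ : Zw) :
    MemLp (fun x => g (γ +ᵥ x) * conj (g x)) ∞ μ := by
  have h1 : MemLp (fun x => g (γ +ᵥ x)) ∞ μ :=
    hg.comp_measurePreserving (measurePreserving_vadd γ μ)
  have h2 : MemLp (fun x => conj (g x)) ∞ μ :=
    hg.congr_norm (Complex.continuous_conj.comp_aestronglyMeasurable hg.1)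
      (Eventually.of_forall fun y => by simp)
  exact MemLp.mul' h2 h1

lemma ghk_lower {Φ : ℕ → Finset Zw} (hΦ : IsFolner Φ) : ∀ (k : ℕ) (g : X → ℂ), MemLp g ∞ μ →
    ENNReal.ofReal (‖∫ x, g x ∂μ‖ ^ (2 ^ (k + 1))) ≤ ghkPow μ Φ k g := by
  intro k
  induction k with
  | zero =>
    intro g _
    simp only [ghkPow]
    rw [ENNReal.ofReal_pow (norm_nonneg _), ofReal_norm_eq_enorm]
    simp
  | succ k ih =>
    intro g hg
    have hg2 : MemLp g 2 μ := hg.mono_exponent le_top
    let U : Zw → Lp ℂ 2 μ →ₗᵢ[ℂ] Lp ℂ 2 μ := fun γ =>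
      Lp.compMeasurePreservingₗᵢ ℂ (fun x => γ +ᵥ x) (measurePreserving_vadd γ μ)
    have hU : ∀ γ (u : Lp ℂ 2 μ), ∀ᵐ x ∂μ, U γ u x = u (γ +ᵥ x) := fun γ u =>
      Lp.coeFn_compMeasurePreserving u _
    have hadd : ∀ γ γ' v, U (γ + γ') v = U γ' (U γ v) := by
      intro γ γ' v
      refine Lp.ext ?_
      filter_upwards [hU (γ + γ') v, hU γ' (U γ v),
        (measurePreserving_vadd γ' μ).quasiMeasurePreserving.ae (hU γ v)] with x h1 h2 h3
      rw [h1, h2, h3, add_vadd]
    let w : Lp ℂ 2 μ := (memLp_const (1 : ℂ)).toLp _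
    have hw : ∀ᵐ x ∂μ, w x = 1 := MemLp.coeFn_toLp _
    have hwU : ∀ γ, U γ w = w := by
      intro γ
      refine Lp.ext ?_
      filter_upwards [hU γ w, hw, (measurePreserving_vadd γ μ).quasiMeasurePreserving.ae hw]
        with x h1 h2 h3
      rw [h1, h2, h3]
    have hw1 : ‖w‖ = 1 := by
      rw [Lp.norm_toLp, eLpNorm_const _ (by norm_num) (NeZero.ne μ)]
      simp
    let v : Lp ℂ 2 μ := hg2.toLp _
    have hv : ∀ᵐ x ∂μ, v x = g x := MemLp.coeFn_toLp _
    obtain ⟨r, hr1, hr2⟩ := met U hadd hΦ v w hwU hw1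
    have e1 : ⟪w, v⟫_ℂ = ∫ x, g x ∂μ := by
      rw [inner_L2]
      refine integral_congr_ae ?_
      filter_upwards [hw, hv] with x h1 h2
      simp [h1, h2]
    have e2 : ∀ γ, ⟪v, U γ v⟫_ℂ = ∫ x, g (γ +ᵥ x) * conj (g x) ∂μ := by
      intro γ
      rw [inner_L2]
      refine integral_congr_ae ?_
      filter_upwards [hU γ v, hv, (measurePreserving_vadd γ μ).quasiMeasurePreserving.ae hv]
        with x h1 h2 h3
      rw [h1, h2, h3]
    rw [e1] at hr1
    simp only [e2] at hr2
    have hr0 : 0 ≤ r := le_trans (by positivity) hr1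
    have hr3 := ENNReal.tendsto_ofReal (hr2.norm.pow (2 ^ (k + 1)))
    rw [Complex.norm_real, Real.norm_of_nonneg hr0] at hr3
    have hle : ENNReal.ofReal (‖∫ x, g x ∂μ‖ ^ (2 ^ (k + 1 + 1))) ≤
        ENNReal.ofReal (r ^ (2 ^ (k + 1))) := by
      refine ENNReal.ofReal_le_ofReal ?_
      rw [pow_succ' 2 (k + 1), pow_mul]
      gcongr
    refine hle.trans ?_
    rw [← hr3.liminf_eq]
    simp only [ghkPow]
    refine liminf_le_liminf (Eventually.of_forall fun n => ?_)
    have hcard : (0 : ℝ) < (Φ n).card := by exact_mod_cast (hΦ.1 n).card_pos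
    obtain ⟨m, hm⟩ : ∃ m, 2 ^ (k + 1) = m + 1 := ⟨2 ^ (k + 1) - 1, by
      have : 0 < 2 ^ (k + 1) := by positivity
      omega⟩
    have h1 := pow_sum_div_card_le_sum_pow (s := Φ n)
      (f := fun γ => ‖∫ x, g (γ +ᵥ x) * conj (g x) ∂μ‖) (fun _ _ => norm_nonneg _) m
    have h2 : ‖(∑ γ ∈ Φ n, ∫ x, g (γ +ᵥ x) * conj (g x) ∂μ) / ((Φ n).card : ℂ)‖ ^ (2 ^ (k + 1)) ≤
        (∑ γ ∈ Φ n, ‖∫ x, g (γ +ᵥ x) * conj (g x) ∂μ‖ ^ (2 ^ (k + 1))) / (Φ n).card := by
      rw [hm, le_div_iff₀ hcard]
      refine le_trans ?_ h1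
      rw [norm_div, Complex.norm_natCast, div_pow, pow_succ ((Φ n).card : ℝ) m, div_mul_eq_mul_div,
        mul_div_mul_right _ _ hcard.ne']
      gcongr
      exact norm_sum_le _ _
    refine (ENNReal.ofReal_le_ofReal h2).trans ?_
    rw [ENNReal.ofReal_div_of_pos hcard, ENNReal.ofReal_natCast,
      ENNReal.ofReal_sum_of_nonneg (fun _ _ => by positivity)]
    gcongr with γ _
    exact ih _ (memLp_top_delta hg γ)

end Sys

section Total
variable {X : Type*} [TopologicalSpace X] [CompactSpace X] [T2Space X] [SecondCountableTopology X]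
  [MeasurableSpace X] [BorelSpace X] {μ : Measure X} [IsFiniteMeasure μ]

/-- The phase function of a continuous circle valued function. -/
noncomputable def exC (P : C(X, TT)) : C(X, ℂ) := ⟨fun x => ex (P x), by fun_prop⟩

lemma total (A : AddSubgroup C(X, TT)) (hA : ∀ x y : X, (∀ P ∈ A, P x = P y) → x = y)
    (g : X → ℂ) (hg : MemLp g 2 μ) (h : ∀ P ∈ A, ∫ x, g x * ex (P x) ∂μ = 0) : g =ᵐ[μ] 0 := by
  let s : Set C(X, ℂ) := exC '' A
  let B : StarSubalgebra ℂ C(X, ℂ) :=
    { toSubalgebra := Algebra.adjoin ℂ s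
      star_mem' := by
        change Algebra.adjoin ℂ s ≤ star (Algebra.adjoin ℂ s)
        refine Algebra.adjoin_le ?_
        rintro - ⟨P, hP, rfl⟩
        exact Algebra.subset_adjoin ⟨-P, A.neg_mem hP, ContinuousMap.ext fun x => ex_neg _⟩ }
  have hB : Subalgebra.toSubmodule B.toSubalgebra = Submodule.span ℂ s := by
    apply Algebra.adjoin_eq_span_of_subset
    refine Subset.trans ?_ Submodule.subset_span
    intro x hx
    refine Submonoid.closure_induction (fun _ => id) ⟨0, A.zero_mem, ?_⟩ ?_ hx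
    · ext1 z; exact ex_zero
    · rintro - - - - ⟨m, hm, rfl⟩ ⟨n, hn, rfl⟩
      refine ⟨m + n, A.add_mem hm hn, ?_⟩
      ext1 z
      exact ex_add _ _
  have hsep : B.SeparatesPoints := by
    intro x y hxy
    by_contra hcon
    push Not at hcon
    refine hxy (hA x y fun P hP => ex_injective ?_)
    exact hcon _ ⟨exC P, Algebra.subset_adjoin ⟨P, hP, rfl⟩, rfl⟩
  have h1 := ContinuousMap.starSubalgebra_topologicalClosure_eq_top_of_separatesPoints B hsep
  have h2 : (Submodule.span ℂ s).topologicalClosure = ⊤ := by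
    rw [← hB]
    exact congr_arg (Subalgebra.toSubmodule <| StarSubalgebra.toSubalgebra ·) h1
  have h3 := (ContinuousMap.toLp_denseRange ℂ μ ℂ (p := 2)
    (by norm_num)).topologicalClosure_map_submodule h2
  let v : Lp ℂ 2 μ := hg.toLp _
  have hv : ∀ᵐ x ∂μ, v x = g x := MemLp.coeFn_toLp _
  have hv0 : v = 0 := by
    rw [Submodule.topologicalClosure_eq_top_iff] at h3
    have : v ∈ (Submodule.map (ContinuousMap.toLp (E := ℂ) 2 μ ℂ : C(X, ℂ) →ₗ[ℂ] Lp ℂ 2 μ)
        (Submodule.span ℂ s))ᗮ := by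
      rw [Submodule.map_span]
      intro u hu
      induction hu using Submodule.span_induction with
      | mem u hu =>
        obtain ⟨_, ⟨P, hP, rfl⟩, rfl⟩ := hu
        rw [inner_L2, ← h (-P) (A.neg_mem hP)]
        refine integral_congr_ae ?_
        filter_upwards [hv, ContinuousMap.coeFn_toLp (p := 2) (𝕜 := ℂ) μ (exC P)] with x h1 h2
        rw [h1]
        erw [h2]
        rw [ContinuousMap.neg_apply, ex_neg]; rfl
      | zero => simp
      | add x y _ _ hx hy => rw [inner_add_left, hx, hy, add_zero]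
      | smul a x _ hx => rw [inner_smul_left, hx, mul_zero]
    rw [h3] at this
    exact this
  filter_upwards [hv, Lp.coeFn_zero ℂ 2 μ] with x h1 h2
  rw [← h1, hv0, h2]

end Total

section Abramov
variable {X : Type} [TopologicalSpace X] [CompactSpace X] [T2Space X] [SecondCountableTopology X]
  [MeasurableSpace X] [BorelSpace X] [AddAction Zw X] [MeasurableConstVAdd Zw X]
  {μ : Measure X} [IsProbabilityMeasure μ] [VAddInvariantMeasure Zw X μ]

theorem isOfOrder_of_total
    (herg : ∀ g : X → ℂ, MemLp g 2 μ → (∀ γ : Zw, ∀ᵐ x ∂μ, g (γ +ᵥ x) = g x) →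
      ∃ c, ∀ᵐ x ∂μ, g x = c)
    (A : AddSubgroup C(X, TT)) (hA : ∀ x y : X, (∀ P ∈ A, P x = P y) → x = y) (k : ℕ)
    (hpol : ∀ P ∈ A, Pol (DX μ) (k + 1) (ContinuousMap.toAEEqFun μ P)) : IsOfOrder μ k := by
  intro Φ hΦ f hf h0
  refine total A hA f (hf.mono_exponent le_top) fun P hP => ?_
  have h1 := ghk_mul_ex herg Φ k f _ (hpol P hP)
  have hm : MemLp (fun x => f x * ex (ContinuousMap.toAEEqFun μ P x)) ∞ μ :=
    MemLp.mul' (memLp_ex _ ∞) hf
  have h2 := ghk_lower hΦ k _ hm
  rw [h1, h0, nonpos_iff_eq_zero, ENNReal.ofReal_eq_zero] at h2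
  have h3 : ‖∫ x, f x * ex (ContinuousMap.toAEEqFun μ P x) ∂μ‖ = 0 :=
    pow_eq_zero_iff (by positivity) |>.1 (le_antisymm h2 (by positivity))
  rw [norm_eq_zero] at h3
  rw [← h3]
  refine integral_congr_ae ?_
  filter_upwards [ContinuousMap.coeFn_toAEEqFun μ P] with x hx
  rw [hx]

end Abramov

section Null
variable {X : Type*} [MeasurableSpace X] {μ : Measure X} [IsProbabilityMeasure μ]

lemma null_eigen {S : X → X} (hS : MeasurePreserving S μ μ) {F : X → ℂ}
    (hF : AEStronglyMeasurable F μ) (hFS : ∀ᵐ x ∂μ, F (S x) = F x) {P : X → TT}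
    (hP : Measurable P) {c : TT} (hc : c ≠ 0) (hPS : ∀ x, P (S x) = P x + c) :
    ∫ x, F x * ex (P x) ∂μ = 0 := by
  have h1 := integral_comp_mp hS (g := fun x => F x * ex (P x))
    (hF.mul (continuous_ex.measurable.comp hP).aestronglyMeasurable)
  rw [integral_congr_ae (g := fun x => F x * ex (P x) * ex c)
    (hFS.mono fun x hx => by simp only [hx, hPS, ex_add, mul_assoc]), integral_mul_const] at h1
  have h2 : ex c ≠ 1 := fun h => hc (ex_injective (by rw [h, ex_zero]))
  have h3 : (∫ x, F x * ex (P x) ∂μ) * (ex c - 1) = 0 := by rw [mul_sub, h1]; ring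
  exact (mul_eq_zero.1 h3).resolve_right (sub_ne_zero.2 h2)

lemma null_orth {S : ℕ → X → X} (hS : ∀ j, MeasurePreserving (S j) μ μ) {F : X → ℂ}
    (hF : MemLp F 2 μ) (hFS : ∀ j, ∀ᵐ x ∂μ, F (S j x) = F x) {P : X → TT}
    (hP : Measurable P) (hPS : ∀ i j, i ≠ j → ∫ x, ex (P (S j x) - P (S i x)) ∂μ = 0) :
    ∫ x, F x * ex (P x) ∂μ = 0 := by
  have hm : ∀ j, MemLp (fun x => ex (-P (S j x))) 2 μ := fun j =>
    MemLp.of_bound (continuous_ex.measurable.comp
      (hP.comp (hS j).measurable).neg).aestronglyMeasurable 1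
      (Eventually.of_forall fun x => (norm_ex _).le)
  let v : ℕ → Lp ℂ 2 μ := fun j => (hm j).toLp _
  have hv : ∀ j, ∀ᵐ x ∂μ, v j x = ex (-P (S j x)) := fun j => MemLp.coeFn_toLp _
  have hon : Orthonormal ℂ v := by
    rw [orthonormal_iff_ite]
    intro i j
    have e : ⟪v i, v j⟫_ℂ = ∫ x, ex (P (S i x) - P (S j x)) ∂μ := by
      rw [inner_L2]
      refine integral_congr_ae ?_
      filter_upwards [hv i, hv j] with x h1 h2
      rw [h1, h2, ← ex_sub]; congr 1; abel
    rw [e]
    split_ifs with h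
    · simp [h]
    · exact hPS j i (Ne.symm h)
  have hs := hon.inner_products_summable (hF.toLp F)
  have e : ∀ j, ⟪v j, hF.toLp F⟫_ℂ = ∫ x, F x * ex (P x) ∂μ := by
    intro j
    rw [inner_L2, ← integral_comp_mp (hS j) (g := fun x => F x * ex (P x))
      (hF.1.mul (continuous_ex.measurable.comp hP).aestronglyMeasurable)]
    refine integral_congr_ae ?_
    filter_upwards [hv j, hFS j, hF.coeFn_toLp] with x h1 h2 h3
    rw [h1, h2, h3, ← ex_neg, neg_neg]
  simp only [e] at hs
  rw [summable_const_iff] at hs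
  simpa using hs

end Null

end Pool.Agent.MP_a0be58_an

end

-- part MP_a0be58_an.Obstruct
section

/-! The abstract obstruction to being an inverse limit of translational systems. -/

open MeasureTheory Filter Topology Set
open scoped ENNReal ComplexConjugate

namespace Pool.Agent.MP_a0be58_an

set_option linter.unusedSectionVars false

variable {X : Type} [MeasurableSpace X] [AddAction Zw X] [MeasurableConstVAdd Zw X]
  {μ : Measure X} [IsProbabilityMeasure μ] [VAddInvariantMeasure Zw X μ]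

lemma DX_zero (P : X →ₘ[μ] TT) : DX μ 0 P = P := by
  refine AEEqFun.ext ?_
  filter_upwards [coeFn_kop (measurePreserving_vadd (0 : Zw) μ) P] with x hx
  rw [DX, hx, zero_vadd]

lemma DX_add (γ γ' : Zw) (P : X →ₘ[μ] TT) : DX μ (γ + γ') P = DX μ γ' (DX μ γ P) :=
  (kop_kop _ _ _ (Eventually.of_forall fun x => add_vadd γ γ' x) P).symm

lemma DX_nsmul (γ : Zw) (m : ℕ) (P : X →ₘ[μ] TT) :
    DX μ (m • γ) P = ((show AddMonoid.End (X →ₘ[μ] TT) from DX μ γ) ^ m) P := by
  induction m with
  | zero => simpa using DX_zero P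
  | succ m ih => rw [succ_nsmul, DX_add, ih, pow_succ']; rfl

lemma const_of_inv
    (herg : ∀ g : X → ℂ, MemLp g 2 μ → (∀ γ : Zw, ∀ᵐ x ∂μ, g (γ +ᵥ x) = g x) →
      ∃ c, ∀ᵐ x ∂μ, g x = c) (P : X →ₘ[μ] TT) (h : ∀ γ, DX μ γ P = P) :
    ∃ c, P = AEEqFun.const X c := by
  obtain ⟨c, hc⟩ := herg _ (memLp_ex P 2) (fun γ => by
    filter_upwards [coeFn_kop (measurePreserving_vadd γ μ) P] with x hx
    rw [← hx]; exact congrArg (fun R : X →ₘ[μ] TT => ex (R x)) (h γ))
  refine ⟨sec c, AEEqFun.ext ?_⟩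
  filter_upwards [hc, AEEqFun.coeFn_const X (μ := μ) (sec c)] with x h1 h2
  rw [h2, ← h1, sec_ex]; rfl

lemma const_of_small
    (herg : ∀ g : X → ℂ, MemLp g 2 μ → (∀ γ : Zw, ∀ᵐ x ∂μ, g (γ +ᵥ x) = g x) →
      ∃ c, ∀ᵐ x ∂μ, g x = c) {d : ℕ} (P : X →ₘ[μ] TT) (hP : Pol (DX μ) d P)
    (h : del P < (1 / 2) ^ d) : ∃ c, P = AEEqFun.const X c := by
  have hπ : MeasurePreserving (fun _ : X => ()) μ (Measure.dirac ()) :=
    ⟨measurable_const, by simp⟩
  obtain ⟨R, hR⟩ := rigid (S' := fun (_ : Zw) (u : Unit) => u)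
    (fun γ : Zw => measurePreserving_vadd γ μ) (fun _ => MeasurePreserving.id _) hπ
    (fun _ => Eventually.of_forall fun _ => rfl) herg d P hP 0 (by simpa using h)
  refine ⟨R (), AEEqFun.ext ?_⟩
  filter_upwards [coeFn_kop hπ R, AEEqFun.coeFn_const X (μ := μ) (R ())] with x h1 h2
  rw [h2, hR, h1]; rfl

lemma const_add (Y : Type*) [MeasurableSpace Y] (ν : Measure Y) (a b : TT) :
    (AEEqFun.const Y (a + b) : Y →ₘ[ν] TT) = AEEqFun.const Y a + AEEqFun.const Y b := rfl

lemma const_neg (Y : Type*) [MeasurableSpace Y] (ν : Measure Y) (a : TT) :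
    (AEEqFun.const Y (-a) : Y →ₘ[ν] TT) = -AEEqFun.const Y a := rfl

lemma measure_kop_eq {Y : Type*} [MeasurableSpace Y] {ν : Measure Y} {Z : Type*}
    [MeasurableSpace Z] {ρ : Measure Z} {π : Y → Z} (hπ : MeasurePreserving π ν ρ)
    (R : Z →ₘ[ρ] TT) (c : TT) : ν {y | kop hπ R y = c} = ρ {z | R z = c} := by
  rw [← hπ.measure_preimage (s := {z | R z = c})
    (R.stronglyMeasurable.measurable (measurableSet_singleton c)).nullMeasurableSet]
  refine measure_congr ?_
  filter_upwards [coeFn_kop hπ R] with y hy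
  show (kop hπ R y = c) = (R (π y) = c)
  rw [hy]

theorem not_translational
    (herg : ∀ g : X → ℂ, MemLp g 2 μ → (∀ γ : Zw, ∀ᵐ x ∂μ, g (γ +ᵥ x) = g x) →
      ∃ c, ∀ᵐ x ∂μ, g x = c)
    (Q : ℕ → X →ₘ[μ] TT) (hQ : ∀ n, Pol (DX μ) 3 (Q n)) (q : ℕ → ℕ)
    (hq : ∀ b, ∃ n, (q n).Prime ∧ b ≤ q n)
    (hW1 : ∀ n, q n • (q n • Q n - Q 0) = 0)
    (hW2 : ∀ n, (q n).Prime → μ {x | (q n • Q n - Q 0) x = 0} = (q n : ℝ≥0∞)⁻¹)
    (hW3 : ∀ n, (q n).Prime → 3 ≤ q n → ∀ c, c ≠ 0 →
      μ {x | (q n • Q n - Q 0) x = c} ≠ (q n : ℝ≥0∞)⁻¹)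
    (h5 : ∀ n, (q n).Prime → ∀ P : X →ₘ[μ] TT, (∀ γ : Zw, DX μ (q n ^ 2 • γ) P = P) →
      ∀ γ : Zw, DX μ (q n • γ) P = P)
    {d : ℕ} (S : TranslSystem d) (π : X → S.G ⧸ S.Λ) (hπ : IsFactorMap μ S π)
    (Q' : ℕ → (S.G ⧸ S.Λ) →ₘ[S.ν] TT) (hQ' : ∀ n, Q n = kop hπ.1 (Q' n)) : False := by
  have := S.Λ_closed
  have := S.cocompact
  have := S.prob
  have := S.inv
  let act : S.G → ((S.G ⧸ S.Λ) →ₘ[S.ν] TT) →+ ((S.G ⧸ S.Λ) →ₘ[S.ν] TT) :=
    fun g => kop (measurePreserving_smul g S.ν)
  have h1 : ∀ m, act 1 m = m := by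
    intro m
    refine AEEqFun.ext ?_
    filter_upwards [coeFn_kop (measurePreserving_smul (1 : S.G) S.ν) m] with x hx
    rw [hx, one_smul]
  have hmul : ∀ g h m, act (g * h) m = act h (act g m) := fun g h m =>
    (kop_kop _ _ _ (Eventually.of_forall fun x => mul_smul g h x) m).symm
  have hcomm : ∀ (γ : Zw) m, kop hπ.1 (act (S.φ (Multiplicative.ofAdd γ)) m) =
      DX μ γ (kop hπ.1 m) := by
    intro γ m
    have hc := (measurePreserving_smul (S.φ (Multiplicative.ofAdd γ)) S.ν).comp hπ.1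
    rw [kop_kop hπ.1 _ hc (Eventually.of_forall fun _ => rfl),
      DX, kop_kop _ hπ.1 hc ((hπ.2 γ).mono fun _ h => h.symm)]
  have hinj := kop_injective hπ.1
  have hinv : ∀ m, (∀ n ∈ S.φ.range, act n m = m) → ∀ g, act g m = m := by
    intro m hm g
    obtain ⟨c, hc⟩ := const_of_inv herg (kop hπ.1 m) (fun γ => by
      rw [← hcomm, hm _ ⟨_, rfl⟩])
    have : m = AEEqFun.const _ c := hinj (by rw [hc, kop_const])
    rw [this]; rfl
  obtain ⟨C, hC⟩ := nil_pol h1 hmul S.F_one S.F_anti S.F_last S.F_comm S.φ.range hinv 3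
  have hQC : ∀ n g, Pol (DX μ) C (kop hπ.1 (act g (Q' n) - Q' n)) := by
    intro n g
    have a1 : Pol (fun γ : Zw => act (S.φ (Multiplicative.ofAdd γ))) 3 (Q' n) :=
      Pol.of_map (kop hπ.1) hcomm hinj (by rw [← hQ']; exact hQ n)
    have a2 : Pol (fun k : S.φ.range => act k) 3 (Q' n) :=
      Pol.of_range (fun ⟨_, γ, hγ⟩ => ⟨γ.toAdd, by simp [← hγ]⟩) a1
    have a3 : Pol act C (act g (Q' n) - Q' n) := (hC _ a2).succ g
    have a4 : Pol (fun γ : Zw => act (S.φ (Multiplicative.ofAdd γ))) C (act g (Q' n) - Q' n) :=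
      Pol.of_range (D := act) (fun γ => ⟨S.φ (Multiplicative.ofAdd γ), rfl⟩) a3
    exact Pol.map (kop hπ.1) hcomm a4
  let H : Subgroup S.G :=
    { carrier := {g | ∃ c, act g (Q' 0) = Q' 0 + AEEqFun.const _ c}
      one_mem' := ⟨0, by rw [h1]; exact (add_zero _).symm⟩
      mul_mem' := by
        rintro g h ⟨a, ha⟩ ⟨b, hb⟩
        refine ⟨b + a, ?_⟩
        rw [hmul, ha, map_add, hb, const_add, add_assoc]; rfl
      inv_mem' := by
        rintro g ⟨a, ha⟩
        refine ⟨-a, ?_⟩
        have e := hmul g g⁻¹ (Q' 0)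
        rw [mul_inv_cancel, h1, ha, map_add] at e
        have e2 : act g⁻¹ (AEEqFun.const _ a) = AEEqFun.const _ a := rfl
        rw [e2] at e
        rw [const_neg, ← sub_eq_add_neg, eq_sub_iff_add_eq]; exact e.symm }
  have hHo : IsOpen (H : Set S.G) := by
    let F : Lp ℂ 1 S.ν := (memLp_ex (Q' 0) 1).toLp _
    have hF : ∀ᵐ y ∂S.ν, F y = ex (Q' 0 y) := MemLp.coeFn_toLp _
    let Φ : C(S.G × (S.G ⧸ S.Λ), S.G ⧸ S.Λ) := ⟨fun p => p.1 • p.2, continuous_smul⟩
    have hm : ∀ g, MeasurePreserving (Φ.curry g) S.ν S.ν := fun g => measurePreserving_smul g S.ν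
    have hc : Continuous fun g => ‖Lp.compMeasurePreserving (Φ.curry g) (hm g) F - F‖ :=
      (((continuous_const (y := F)).compMeasurePreservingLp Φ.curry.continuous hm
        ENNReal.one_ne_top).sub continuous_const).norm
    have he : ∀ g, ‖Lp.compMeasurePreserving (Φ.curry g) (hm g) F - F‖ =
        del (act g (Q' 0) - Q' 0) := by
      intro g
      rw [L1.norm_eq_integral_norm, del]
      refine integral_congr_ae ?_
      filter_upwards [Lp.coeFn_sub (Lp.compMeasurePreserving (Φ.curry g) (hm g) F) F,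
        Lp.coeFn_compMeasurePreserving F (hm g), hF, (hm g).quasiMeasurePreserving.ae hF,
        AEEqFun.coeFn_sub (act g (Q' 0)) (Q' 0),
        coeFn_kop (measurePreserving_smul g S.ν) (Q' 0)] with y e1 e2 e3 e4 e5 e6
      rw [e1, Pi.sub_apply, e2, Function.comp_apply, e4, e3, e5, Pi.sub_apply, e6, ex_sub]
      have e7 : ex (Q' 0 (g • y)) * conj (ex (Q' 0 y)) - 1 =
          (ex (Q' 0 (g • y)) - ex (Q' 0 y)) * conj (ex (Q' 0 y)) := by
        have := ex_mul_conj (Q' 0 y)
        linear_combination this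
      rw [e7, norm_mul, Complex.norm_conj, norm_ex, mul_one]; rfl
    simp only [he] at hc
    refine H.isOpen_of_mem_nhds (g := 1) ?_
    have hn : (fun g => del (act g (Q' 0) - Q' 0)) ⁻¹' Iio ((1 / 2) ^ C) ∈ 𝓝 (1 : S.G) := by
      refine hc.continuousAt.preimage_mem_nhds (Iio_mem_nhds ?_)
      rw [h1, sub_self, del]
      rw [integral_congr_ae (g := fun _ => 0), integral_zero]
      · positivity
      · filter_upwards [AEEqFun.coeFn_zero (α := S.G ⧸ S.Λ) (μ := S.ν) (β := TT)] with y hy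
        simp [hy]
    refine mem_of_superset hn fun g hg => ?_
    obtain ⟨c, hc⟩ := const_of_small herg _ (hQC 0 g) (by rw [del_kop]; exact hg)
    refine ⟨c, ?_⟩
    have : act g (Q' 0) - Q' 0 = AEEqFun.const _ c := hinj (by rw [hc, kop_const])
    rw [← this]; abel
  have hopen : ∀ y : S.G ⧸ S.Λ, IsOpenMap fun g : S.G => g • y := by
    intro y
    induction y using QuotientGroup.induction_on with
    | H y => exact QuotientGroup.isOpenMap_coe.comp (isOpenMap_mul_right y)
  obtain ⟨δ, hδ, hδ'⟩ := exists_delta hopen S.ν H hHo S.F S.F_one S.F_anti S.F_last S.F_comm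
  obtain ⟨b, hb⟩ := ENNReal.exists_inv_nat_lt hδ.ne'
  obtain ⟨n, hp, hn⟩ := hq (max (max C 3) b)
  have hCp : C ≤ q n := le_trans (le_trans (le_max_left _ _) (le_max_left _ _)) hn
  have h3p : 3 ≤ q n := le_trans (le_trans (le_max_right _ _) (le_max_left _ _)) hn
  have hbp : b ≤ q n := le_trans (le_max_right _ _) hn
  set p := q n with hpdef
  let W' := p • Q' n - Q' 0
  have hW' : kop hπ.1 W' = p • Q n - Q 0 := by
    simp only [W', map_sub, map_nsmul, ← hQ']
  have hW'p : p • W' = 0 := hinj (by rw [map_nsmul, hW', map_zero]; exact hW1 n)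
  let A : Set (S.G ⧸ S.Λ) := {y | W' y = 0}
  have hA : MeasurableSet A := W'.stronglyMeasurable.measurable (measurableSet_singleton 0)
  have hAm : S.ν A = (p : ℝ≥0∞)⁻¹ := by
    rw [← measure_kop_eq hπ.1 W' 0, hW']; exact hW2 n hp
  have hAinv : ∀ g ∈ H, (fun y => g • y) ⁻¹' A =ᵐ[S.ν] A := by
    rintro g ⟨c₀, hc₀⟩
    set P := kop hπ.1 (act g (Q' n) - Q' n) with hP
    set τ := kop hπ.1 (act g W' - W') with hτ
    have hpP : p • P = τ + AEEqFun.const _ c₀ := by
      rw [hP, hτ, ← kop_const hπ.1, ← map_add, ← map_nsmul]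
      congr 1
      simp only [W', map_sub, map_nsmul, hc₀, smul_sub]
      abel
    have hpτ : p • τ = 0 := by
      rw [hτ, ← map_nsmul, smul_sub, ← map_nsmul, hW'p]; simp
    have hEc : ∀ γ : Zw, ∀ c, DX μ γ (AEEqFun.const _ c) = AEEqFun.const _ c := fun _ _ => rfl
    have s1 : ∀ γ : Zw, DX μ (p ^ 2 • γ) P = P := by
      intro γ
      have := bin1 ((show AddMonoid.End (X →ₘ[μ] TT) from DX μ γ) - 1) hp hCp
        (Pol.pow γ (hQC n g)) (by
          show p ^ 2 • (DX μ γ P - P) = 0
          rw [pow_two, mul_smul, smul_sub, ← map_nsmul, hpP, map_add, hEc, add_sub_add_right_eq_sub,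
            smul_sub, ← map_nsmul, hpτ]
          simp)
      rwa [sub_add_cancel, ← DX_nsmul] at this
    have s2 := h5 n hp P s1
    have s3 : ∀ γ : Zw, DX μ γ τ = τ := by
      intro γ
      have := bin2 ((show AddMonoid.End (X →ₘ[μ] TT) from DX μ γ) - 1) hp hCp
        (Pol.pow γ (hQC n g)) (by rw [sub_add_cancel, ← DX_nsmul]; exact s2 γ)
      change p • (DX μ γ P - P) = 0 at this
      rwa [smul_sub, ← map_nsmul, hpP, map_add, hEc, add_sub_add_right_eq_sub, sub_eq_zero] at this
    obtain ⟨c, hc⟩ := const_of_inv herg τ s3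
    have s4 : act g W' - W' = AEEqFun.const _ c := hinj (by rw [← hτ, hc, kop_const])
    have s5 : ∀ᵐ y ∂S.ν, W' (g • y) = W' y + c := by
      filter_upwards [AEEqFun.coeFn_sub (act g W') W', coeFn_kop (measurePreserving_smul g S.ν) W',
        AEEqFun.coeFn_const (S.G ⧸ S.Λ) (μ := S.ν) c] with y e1 e2 e3
      rw [s4, e3, Pi.sub_apply, e2] at e1
      have : c = W' (g • y) - W' y := e1
      rw [this]; abel
    have s6 : c = 0 := by
      by_contra hc0
      refine hW3 n hp h3p (-c) (neg_ne_zero.2 hc0) ?_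
      rw [← hW', measure_kop_eq hπ.1 W', ← hAm,
        ← (measurePreserving_smul g S.ν).measure_preimage hA.nullMeasurableSet]
      refine measure_congr ?_
      filter_upwards [s5] with y hy
      show (W' y = -c) = (W' (g • y) = 0)
      rw [hy, eq_neg_iff_add_eq_zero]
    filter_upwards [s5] with y hy
    show (W' (g • y) = 0) = (W' y = 0)
    rw [hy, s6, add_zero]
  have hfin := hδ' A hA hAinv (by rw [hAm]; simp)
  rw [hAm] at hfin
  have : (p : ℝ≥0∞)⁻¹ ≤ (b : ℝ≥0∞)⁻¹ := ENNReal.inv_le_inv.2 (by exact_mod_cast hbp)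
  exact absurd ((hfin.trans this).trans_lt hb) (lt_irrefl _)

theorem not_invLimit
    (herg : ∀ g : X → ℂ, MemLp g 2 μ → (∀ γ : Zw, ∀ᵐ x ∂μ, g (γ +ᵥ x) = g x) →
      ∃ c, ∀ᵐ x ∂μ, g x = c)
    (f : X →ₘ[μ] TT) (hf : Pol (DX μ) 4 f) (e : ℕ → Zw)
    (Q : ℕ → X →ₘ[μ] TT) (hQ : ∀ n, DX μ (e n) f - f = Q n) (q : ℕ → ℕ)
    (hq : ∀ b, ∃ n, (q n).Prime ∧ b ≤ q n)
    (hW1 : ∀ n, q n • (q n • Q n - Q 0) = 0)
    (hW2 : ∀ n, (q n).Prime → μ {x | (q n • Q n - Q 0) x = 0} = (q n : ℝ≥0∞)⁻¹)
    (hW3 : ∀ n, (q n).Prime → 3 ≤ q n → ∀ c, c ≠ 0 →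
      μ {x | (q n • Q n - Q 0) x = c} ≠ (q n : ℝ≥0∞)⁻¹)
    (h5 : ∀ n, (q n).Prime → ∀ P : X →ₘ[μ] TT, (∀ γ : Zw, DX μ (q n ^ 2 • γ) P = P) →
      ∀ γ : Zw, DX μ (q n • γ) P = P)
    (d : ℕ → ℕ) : ¬ IsInvLimit μ d := by
  rintro ⟨S, π, hπ, hmono, hgen⟩
  obtain ⟨n, R₀, hR₀⟩ := approx_circle (fun n => (hπ n).1) hmono hgen f
    (show (0 : ℝ) < (1 / 2) ^ 4 by positivity)
  have := (S n).prob
  have := (S n).inv
  have hS' := fun γ : Zw => measurePreserving_smul ((S n).φ (Multiplicative.ofAdd γ)) (S n).ν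
  obtain ⟨f', hf'⟩ := rigid (fun γ : Zw => measurePreserving_vadd γ μ) hS' (hπ n).1 (hπ n).2
    herg 4 f hf R₀ hR₀
  refine not_translational herg Q (fun j => by rw [← hQ]; exact hf _) q hq hW1 hW2 hW3 h5
    (S n) (π n) (hπ n) (fun j => kop (hS' (e j)) f' - f') fun j => ?_
  have hc := (hS' (e j)).comp (hπ n).1
  rw [← hQ, map_sub, kop_kop (hπ n).1 _ hc (Eventually.of_forall fun _ => rfl), hf', DX,
    kop_kop _ (hπ n).1 hc (((hπ n).2 _).mono fun _ h => h.symm)]

end Pool.Agent.MP_a0be58_an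

end

-- part MP_a0be58_an.Example
section

/-! Ergodic properties of the example. -/

open MeasureTheory Filter Topology Set
open scoped ENNReal

namespace Pool.Agent.MP_a0be58_an

set_option synthInstance.maxSize 4096

/-- A character of the phase space. -/
noncomputable def chr (k j i : ℤ) (m l : Zw) (x : XX) : TT :=
  k • ff x + j • cc x + i • aa x + lc m (fun n => uu n x) + lc l (fun n => LL n x)

lemma continuous_chr (k j i : ℤ) (m l : Zw) : Continuous (chr k j i m l) :=
  ((((continuous_ff.zsmul k).add (continuous_cc.zsmul j)).add (continuous_aa.zsmul i)).add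
    (continuous_lc m continuous_uu)).add (continuous_lc l continuous_LL)

/-- The group of characters. -/
def A1 : AddSubgroup C(XX, TT) where
  carrier := {P | ∃ k j i m l, ∀ x, P x = chr k j i m l x}
  zero_mem' := ⟨0, 0, 0, 0, 0, fun x => by simp [chr]⟩
  add_mem' := by
    rintro P R ⟨k, j, i, m, l, h⟩ ⟨k', j', i', m', l', h'⟩
    refine ⟨k + k', j + j', i + i', m + m', l + l', fun x => ?_⟩
    simp only [ContinuousMap.add_apply, h, h', chr, lc_add_left]; module
  neg_mem' := by
    rintro P ⟨k, j, i, m, l, h⟩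
    refine ⟨-k, -j, -i, -m, -l, fun x => ?_⟩
    simp only [ContinuousMap.neg_apply, h, chr, lc_neg_left]; module

lemma A1_sep (x y : XX) (h : ∀ P ∈ A1, P x = P y) : x = y := by
  have H : ∀ k j i m l, chr k j i m l x = chr k j i m l y := fun k j i m l =>
    h ⟨_, continuous_chr k j i m l⟩ ⟨k, j, i, m, l, fun _ => rfl⟩
  refine XX_ext (fun n => ?_) (fun n => ?_) ?_ ?_ ?_
  · simpa [chr] using H 0 0 0 0 (Finsupp.single n 1)
  · simpa [chr] using H 0 0 0 (Finsupp.single n 1) 0
  · simpa [chr] using H 0 0 1 0 0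
  · simpa [chr] using H 0 1 0 0 0
  · simpa [chr] using H 1 0 0 0 0

lemma integral_ex_zero {P : XX → TT} (hP : Continuous P) (t : XX) {c : TT} (hc : c ≠ 0)
    (h : ∀ x, P (x + t) = P x + c) : ∫ x, ex (P x) ∂muX = 0 := by
  have := null_eigen (μ := muX) (measurePreserving_add_right muX t) (F := fun _ => 1)
    aestronglyMeasurable_const (Eventually.of_forall fun _ => rfl) hP.measurable hc h
  simpa using this

/-- Translation vector. -/
noncomputable def tL : XX := ((((alz, 0), 0), 0), 0)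
/-- Translation vector. -/
noncomputable def tU : XX := ((((0, ustz), 0), 0), 0)

lemma LL_tL (n : ℕ) (x : XX) : LL n (x + tL) = LL n x + al n := rfl
lemma uu_tL (n : ℕ) (x : XX) : uu n (x + tL) = uu n x := add_zero _
lemma LL_tU (n : ℕ) (x : XX) : LL n (x + tU) = LL n x := add_zero _
lemma uu_tU (n : ℕ) (x : XX) : uu n (x + tU) = uu n x + ust n := rfl

lemma chr_step_one (k j i : ℤ) (m l : Zw) (s : ℤ) (x : XX) :
    chr k j i m l (step (Finsupp.single 1 s) x) =
      chr k j i m l x + s • (k • uu 0 x + j • LL 0 x + i • al 0) := by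
  have h0 : (Finsupp.single 1 s : Zw) 0 = 0 := by simp
  have h1 : ∀ v : ℕ → TT, lin (Finsupp.single 1 s) v = s • v 0 := fun v => lin_single_succ 0 s v
  simp only [chr, ff_step, cc_step, aa_step, uu_step, LL_step, h0, h1, QQ_zero]
  simp only [mul_zero, zero_smul, add_zero, Int.cast_zero, ne_eq, OfNat.ofNat_ne_zero,
    not_false_eq_true, zero_pow, sub_self]
  module

lemma chr_step_zero (m l : Zw) (y : ℤ) (hy : ∀ n ∈ m.support, (qq n : ℤ) ∣ y) (x : XX) :
    chr 0 0 0 m l (step (Finsupp.single 0 y) x) =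
      chr 0 0 0 m l x + ((2 * y) • lc m (fun n => LL n x) + (y ^ 2) • lc m al + y • lc l al) := by
  have h0 : (Finsupp.single 0 y : Zw) 0 = y := by simp
  have h1 : lc m (fun n => uu n (step (Finsupp.single 0 y) x)) =
      lc m (fun n => uu n x + (2 * y) • LL n x + (y ^ 2) • al n) := by
    refine lc_congr m fun n hn => ?_
    rw [uu_step, h0, (ZMod.intCast_zmod_eq_zero_iff_dvd y (qq n)).2 (hy n hn), add_zero]
    abel
  simp only [chr, h1, LL_step, h0, lc_add_right, lc_smul_right]
  module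

lemma dichotomy (n₀ : ℕ) (k j i : ℤ) (m l : Zw) :
    (∀ F : XX → ℂ, MemLp F 2 muX →
      (∀ γ : Zw, ∀ᵐ x ∂muX, F ((qq n₀ ^ 2 • γ) +ᵥ x) = F x) →
        ∫ x, F x * ex (chr k j i m l x) ∂muX = 0) ∨
    ∃ t : ℤ, ∀ x, chr k j i m l x = t • io n₀ (ze n₀ x) := by
  set N : ℕ := qq n₀ ^ 2 with hN
  have hN0 : (N : ℤ) ≠ 0 := by
    have := qq_pos n₀
    have : 0 < N := by positivity
    exact_mod_cast this.ne'
  have hsm : ∀ (a : ℕ) (s : ℤ), N • (Finsupp.single a s : Zw) = Finsupp.single a ((N : ℤ) * s) := by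
    intro a s; rw [Finsupp.smul_single, nsmul_eq_mul]
  have hmeas := (continuous_chr k j i m l).measurable
  by_cases hkj : k ≠ 0 ∨ j ≠ 0
  · left
    intro F hF hinv
    refine null_orth (S := fun s : ℕ => step (Finsupp.single 1 ((N : ℤ) * s)))
      (fun s => mp_step _) hF (fun s => ?_) hmeas fun a b hab => ?_
    · have := hinv (Finsupp.single 1 s)
      rwa [hsm] at this
    · have hab' : (N : ℤ) * ((b : ℤ) - a) ≠ 0 :=
        mul_ne_zero hN0 (sub_ne_zero.2 (by exact_mod_cast hab.symm))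
      have e : ∀ x, chr k j i m l (step (Finsupp.single 1 ((N : ℤ) * b)) x) -
          chr k j i m l (step (Finsupp.single 1 ((N : ℤ) * a)) x) =
          ((N : ℤ) * ((b : ℤ) - a)) • (k • uu 0 x + j • LL 0 x + i • al 0) := by
        intro x; rw [chr_step_one, chr_step_one]; module
      simp only [e]
      have hc : Continuous fun x =>
          ((N : ℤ) * ((b : ℤ) - a)) • (k • uu 0 x + j • LL 0 x + i • al 0) :=
        ((((continuous_uu 0).zsmul k).add ((continuous_LL 0).zsmul j)).add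
          continuous_const).zsmul _
      by_cases hk : k = 0
      · have hj : j ≠ 0 := hkj.resolve_left (not_not.2 hk)
        refine integral_ex_zero hc tL (smul_al_ne _ (mul_ne_zero hab' hj)) fun x => ?_
        rw [LL_tL, uu_tL]; module
      · refine integral_ex_zero hc tU (smul_ust_ne _ (mul_ne_zero hab' hk)) fun x => ?_
        rw [LL_tU, uu_tU]; module
  push Not at hkj
  obtain ⟨rfl, rfl⟩ := hkj
  by_cases hi : i ≠ 0
  · left
    intro F hF hinv
    have := hinv (Finsupp.single 1 1)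
    rw [hsm] at this
    refine null_eigen (mp_step _) hF.1 this hmeas
      (smul_al_ne ((N : ℤ) * 1 * i) (by simpa using ⟨by exact_mod_cast hN0, hi⟩)) fun x => ?_
    rw [chr_step_one]; module
  push Not at hi
  subst hi
  by_cases hr : rr m ≠ 0
  · left
    intro F hF hinv
    let D : ℕ := ∏ n ∈ m.support, qq n
    have hD0 : (D : ℤ) ≠ 0 := by
      have : 0 < D := Finset.prod_pos fun n _ => qq_pos n
      exact_mod_cast this.ne'
    have hD : ∀ s : ℤ, ∀ n ∈ m.support, (qq n : ℤ) ∣ (N : ℤ) * (D * s) := by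
      intro s n hn
      refine Dvd.dvd.mul_left (Dvd.dvd.mul_right ?_ _) _
      exact_mod_cast Finset.dvd_prod_of_mem qq hn
    refine null_orth (S := fun s : ℕ => step (Finsupp.single 0 ((N : ℤ) * (D * s))))
      (fun s => mp_step _) hF (fun s => ?_) hmeas fun a b hab => ?_
    · have := hinv (Finsupp.single 0 (D * s))
      rwa [hsm] at this
    · have hab' : 2 * ((N : ℤ) * (D * ((b : ℤ) - a))) ≠ 0 :=
        mul_ne_zero two_ne_zero (mul_ne_zero hN0 (mul_ne_zero hD0
          (sub_ne_zero.2 (by exact_mod_cast hab.symm))))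
      refine integral_ex_zero (((continuous_chr 0 0 0 m l).comp (continuous_step _)).sub
        ((continuous_chr 0 0 0 m l).comp (continuous_step _))) tL
        (smul_lc_al_ne m hr _ hab') fun x => ?_
      have e : ∀ x, chr 0 0 0 m l (step (Finsupp.single 0 ((N : ℤ) * (D * b))) x) -
          chr 0 0 0 m l (step (Finsupp.single 0 ((N : ℤ) * (D * a))) x) =
          (2 * ((N : ℤ) * (D * ((b : ℤ) - a)))) • lc m (fun n => LL n x) +
          ((((N : ℤ) * (D * b)) ^ 2 - ((N : ℤ) * (D * a)) ^ 2) • lc m al +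
            ((N : ℤ) * (D * ((b : ℤ) - a))) • lc l al) := by
        intro x; rw [chr_step_zero m l _ (hD b), chr_step_zero m l _ (hD a)]; module
      simp only [e, LL_tL, lc_add_right]
      module
  push Not at hr
  obtain ⟨m', hm'⟩ := reduce_of_rr m hr
  have hu : ∀ x, lc m (fun n => uu n x) = 0 := by
    intro x; rw [hm']; simp only [uu_rel, sub_self, lc_zero_right]
  have hchr : ∀ x, chr 0 0 0 m l x = lc l (fun n => LL n x) := by
    intro x; simp [chr, hu]
  by_cases hl : (N : ℤ) • lc l al ≠ 0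
  · left
    intro F hF hinv
    have := hinv (Finsupp.single 0 1)
    rw [hsm] at this
    refine null_eigen (mp_step _) hF.1 this hmeas hl fun x => ?_
    simp only [hchr, LL_step, lc_add_right, lc_smul_right]
    simp
  push Not at hl
  have hrl : rr l = 0 := by
    by_contra h
    exact smul_lc_al_ne l h _ hN0 hl
  obtain ⟨l', hl'⟩ := reduce_of_rr l hrl
  right
  refine ⟨l' n₀, fun x => ?_⟩
  rw [hchr, hl']
  simp only [LL_rel]
  refine lc_io_single l' n₀ ?_ _
  rw [hl'] at hl
  simpa only [qq_smul_al] using hl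

lemma integrable_mul_ex {F : XX → ℂ} (hF : MemLp F 2 muX) {P : XX → TT} (hP : Measurable P) :
    Integrable (fun x => F x * ex (P x)) muX :=
  (hF.integrable one_le_two).mul_bdd (c := 1)
    (continuous_ex.measurable.comp hP).aestronglyMeasurable
    (Eventually.of_forall fun x => (norm_ex _).le)

lemma hergX (g : XX → ℂ) (hg : MemLp g 2 muX) (h : ∀ γ : Zw, ∀ᵐ x ∂muX, g (γ +ᵥ x) = g x) :
    ∃ c, ∀ᵐ x ∂muX, g x = c := by
  refine ⟨∫ x, g x ∂muX, ?_⟩
  have hG : MemLp (fun x => g x - ∫ x, g x ∂muX) 2 muX := hg.sub (memLp_const _)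
  have := total A1 A1_sep _ hG (by
    rintro P ⟨k, j, i, m, l, hP⟩
    simp only [hP]
    rcases dichotomy 0 k j i m l with H | ⟨t, H⟩
    · refine H _ hG fun γ => ?_
      filter_upwards [h (qq 0 ^ 2 • γ)] with x hx
      rw [hx]
    · simp only [H, io_zero_idx, smul_zero, ex_zero, mul_one]
      rw [integral_sub (hg.integrable one_le_two) (integrable_const _)]
      simp)
  filter_upwards [this] with x hx
  exact sub_eq_zero.1 hx

lemma inv_sq (n : ℕ) (F : XX → ℂ) (hF : MemLp F 2 muX)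
    (h : ∀ γ : Zw, ∀ᵐ x ∂muX, F ((qq n ^ 2 • γ) +ᵥ x) = F x) (γ : Zw) :
    ∀ᵐ x ∂muX, F ((qq n • γ) +ᵥ x) = F x := by
  have hmp := measurePreserving_vadd (qq n • γ) muX
  have hF' : MemLp (fun x => F ((qq n • γ) +ᵥ x)) 2 muX := hF.comp_measurePreserving hmp
  have hG : MemLp (fun x => F ((qq n • γ) +ᵥ x) - F x) 2 muX := hF'.sub hF
  have := total A1 A1_sep _ hG (by
    rintro P ⟨k, j, i, m, l, hP⟩
    simp only [hP]
    have hmeas := (continuous_chr k j i m l).measurable
    rcases dichotomy n k j i m l with H | ⟨t, H⟩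
    · refine H _ hG fun γ' => ?_
      filter_upwards [h γ', hmp.quasiMeasurePreserving.ae (h γ')] with x h1 h2
      rw [vadd_comm, h1, h2]
    · simp only [sub_mul]
      rw [integral_sub (integrable_mul_ex hF' hmeas) (integrable_mul_ex hF hmeas), sub_eq_zero,
        ← integral_comp_mp hmp (integrable_mul_ex hF hmeas).1]
      refine integral_congr_ae (Eventually.of_forall fun x => ?_)
      simp only [H, vadd_eq, ze_step]
      simp)
  filter_upwards [this] with x hx
  exact sub_eq_zero.1 hx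

lemma h5X (n : ℕ) (P : XX →ₘ[muX] TT) (h : ∀ γ : Zw, DX muX (qq n ^ 2 • γ) P = P) (γ : Zw) :
    DX muX (qq n • γ) P = P := by
  have := inv_sq n _ (memLp_ex P 2) (fun γ => by
    filter_upwards [coeFn_kop (measurePreserving_vadd (qq n ^ 2 • γ) muX) P] with x hx
    rw [← hx]; exact congrArg (fun R : XX →ₘ[muX] TT => ex (R x)) (h γ)) γ
  refine AEEqFun.ext ?_
  filter_upwards [this, coeFn_kop (measurePreserving_vadd (qq n • γ) muX) P] with x h1 h2
  rw [DX, h2]; exact ex_injective h1

lemma ergodicX : ErgodicVAdd Zw XX muX where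
  aeconst_of_forall_preimage_vadd_ae_eq := by
    intro s hs h
    obtain ⟨c, hc⟩ := hergX (s.indicator fun _ => 1) ((memLp_const 1).indicator hs) (fun γ => by
      filter_upwards [h γ] with x hx
      have hx' : (γ +ᵥ x ∈ s) = (x ∈ s) := hx
      by_cases hxs : x ∈ s
      · rw [indicator_of_mem hxs, indicator_of_mem (hx' ▸ hxs)]
      · rw [indicator_of_notMem hxs, indicator_of_notMem (hx' ▸ hxs)])
    rw [eventuallyConst_set]
    by_cases h1 : c = 1
    · left
      filter_upwards [hc] with x hx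
      by_contra hxs
      rw [indicator_of_notMem hxs, h1] at hx
      exact zero_ne_one hx
    · right
      filter_upwards [hc] with x hx hxs
      rw [indicator_of_mem hxs] at hx
      exact h1 hx.symm

/-- Coordinates as continuous maps. -/
def LLC (n : ℕ) : C(XX, TT) := ⟨LL n, continuous_LL n⟩
/-- Coordinates as continuous maps. -/
noncomputable def QQC (n : ℕ) : C(XX, TT) := ⟨QQ n, continuous_QQ n⟩
/-- Coordinates as continuous maps. -/
def aaC : C(XX, TT) := ⟨aa, continuous_aa⟩
/-- Coordinates as continuous maps. -/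
def ccC : C(XX, TT) := ⟨cc, continuous_cc⟩
/-- Coordinates as continuous maps. -/
def ffC : C(XX, TT) := ⟨ff, continuous_ff⟩

/-- Koopman operators on continuous maps. -/
noncomputable def DC (γ : Zw) : C(XX, TT) →+ C(XX, TT) :=
  ContinuousMap.compAddMonoidHom' ⟨step γ, continuous_step γ⟩

lemma DC_apply (γ : Zw) (P : C(XX, TT)) (x : XX) : DC γ P x = P (step γ x) := rfl

lemma lin_apply (γ : Zw) (V : ℕ → C(XX, TT)) (x : XX) : lin γ V x = lin γ fun n => V n x :=
  map_lin (AddMonoidHom.mk' (fun P : C(XX, TT) => P x) fun _ _ => rfl) γ V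

lemma pol_const (c : TT) : Pol DC 1 (ContinuousMap.const XX c) := fun _ => by
  show _ = 0
  ext x; simp [DC_apply]

lemma pol_LL (n : ℕ) : Pol DC 2 (LLC n) := fun γ => by
  have : DC γ (LLC n) - LLC n = ContinuousMap.const XX (γ 0 • al n) := by
    ext x; simp [DC_apply, LLC, LL_step]
  rw [this]; exact pol_const _

lemma pol_aa : Pol DC 2 aaC := fun γ => by
  have : DC γ aaC - aaC = ContinuousMap.const XX (lin γ al) := by
    ext x; simp [DC_apply, aaC, aa_step]
  rw [this]; exact pol_const _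

lemma pol_QQ (n : ℕ) : Pol DC 3 (QQC n) := fun γ => by
  have : DC γ (QQC n) - QQC n =
      (2 * γ 0) • LLC n + ContinuousMap.const XX ((γ 0 ^ 2) • al n) := by
    ext x; simp only [ContinuousMap.sub_apply, DC_apply, QQC, LLC, ContinuousMap.coe_mk, QQ_step,
      ContinuousMap.add_apply, ContinuousMap.zsmul_apply, ContinuousMap.const_apply]
    abel
  rw [this]; exact ((pol_LL n).zsmul _).add (pol_const _).succ

lemma pol_cc : Pol DC 3 ccC := fun γ => by
  have : DC γ ccC - ccC = lin γ LLC + γ 0 • (aaC + ContinuousMap.const XX (lin γ al)) := by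
    ext x; simp only [ContinuousMap.sub_apply, DC_apply, ccC, aaC, LLC, ContinuousMap.coe_mk,
      cc_step, ContinuousMap.add_apply, ContinuousMap.zsmul_apply, ContinuousMap.const_apply,
      lin_apply]
    abel
  rw [this]
  exact Pol.add (lin_mem (polSub DC 2) γ pol_LL) ((pol_aa.add (pol_const _).succ).zsmul _)

lemma DC_ff (γ : Zw) : DC γ ffC - ffC = lin γ QQC + (2 * γ 0) • (ccC + lin γ LLC) +
    (γ 0 ^ 2) • (aaC + ContinuousMap.const XX (lin γ al)) := by
  ext x; simp only [ContinuousMap.sub_apply, DC_apply, ccC, aaC, ffC, QQC, LLC,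
    ContinuousMap.coe_mk, ff_step, ContinuousMap.add_apply, ContinuousMap.zsmul_apply,
    ContinuousMap.const_apply, lin_apply]
  abel

lemma pol_ff : Pol DC 4 ffC := fun γ => by
  rw [DC_ff]
  exact (Pol.add (lin_mem (polSub DC 3) γ pol_QQ)
    ((pol_cc.add (Pol.succ (lin_mem (polSub DC 2) γ pol_LL))).zsmul _)).add
    ((pol_aa.add (pol_const _).succ).succ.zsmul _)

/-- Passage to equivalence classes. -/
noncomputable def toAE : C(XX, TT) →+ (XX →ₘ[muX] TT) := ContinuousMap.toAEEqFunAddHom muX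

lemma toAE_DC (γ : Zw) (P : C(XX, TT)) : toAE (DC γ P) = DX muX γ (toAE P) := rfl

lemma coeFn_toAE (P : C(XX, TT)) : ∀ᵐ x ∂muX, toAE P x = P x :=
  ContinuousMap.coeFn_toAEEqFun muX P

lemma orderX : IsOfOrder muX 3 := by
  refine isOfOrder_of_total hergX (polSub DC 4) (fun x y h => ?_) 3
    fun P hP => Pol.map toAE toAE_DC hP
  exact XX_ext' (fun n => h (LLC n) (pol_LL n).succ.succ) (fun n => h (QQC n) (pol_QQ n).succ)
    (h aaC pol_aa.succ.succ) (h ccC pol_cc.succ) (h ffC pol_ff)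

lemma measure_ze (n : ℕ) (j : ZMod (qq n)) : muX (ze n ⁻¹' {j}) = (qq n : ℝ≥0∞)⁻¹ := by
  have hm : ∀ j, MeasurableSet (ze n ⁻¹' {j}) := fun j =>
    (continuous_ze n).measurable (measurableSet_singleton j)
  have h1 : ∀ j, muX (ze n ⁻¹' {j}) = muX (ze n ⁻¹' {0}) := by
    intro j
    rw [← (mp_step (Finsupp.single 0 (j.val : ℤ))).measure_preimage (hm j).nullMeasurableSet]
    congr 1
    ext x
    simp [ze_step]
  have h2 := sum_measure_preimage_singleton (μ := muX) (Finset.univ : Finset (ZMod (qq n)))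
    (f := ze n) fun j _ => hm j
  simp only [h1, Finset.sum_const, Finset.card_univ, ZMod.card, Finset.coe_univ, preimage_univ,
    measure_univ, nsmul_eq_mul] at h2
  rw [h1]
  exact ENNReal.eq_inv_of_mul_eq_one_left (by rw [mul_comm]; exact h2)

lemma measure_W (n : ℕ) (c : TT) :
    muX {x | (qq n • toAE (QQC n) - toAE (QQC 0)) x = c} = muX {x | io n (ze n x ^ 2) = c} := by
  rw [← map_nsmul, ← map_sub]
  refine measure_congr ?_
  filter_upwards [coeFn_toAE (qq n • QQC n - QQC 0)] with x hx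
  show (toAE (qq n • QQC n - QQC 0) x = c) = (io n (ze n x ^ 2) = c)
  rw [hx, ← QQ_rel]; rfl

theorem not_invLimitX (d : ℕ → ℕ) : ¬ IsInvLimit muX d := by
  refine not_invLimit hergX (toAE ffC) (Pol.map toAE toAE_DC pol_ff)
    (fun n => Finsupp.single (n + 1) 1) (fun n => toAE (QQC n)) (fun n => ?_) qq qq_unbounded
    (fun n => ?_) (fun n hp => ?_) (fun n hp h3 c hc => ?_) (fun n _ => h5X n) d
  · rw [← toAE_DC, ← map_sub, DC_ff]; simp
  · rw [← map_nsmul, ← map_sub, ← map_nsmul]
    have : qq n • (qq n • QQC n - QQC 0) = 0 := by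
      ext x
      show qq n • (qq n • QQ n x - QQ 0 x) = 0
      rw [QQ_rel, ← natCast_zsmul, zsmul_io_eq_zero n dvd_rfl]
    rw [this, map_zero]
  · have := Fact.mk hp
    rw [measure_W, ← measure_ze n 0]
    congr 1
    ext x
    simp [map_eq_zero_iff _ (io_injective n)]
  · have := Fact.mk hp
    rw [measure_W]
    intro h
    have hne : (qq n : ℝ≥0∞)⁻¹ ≠ 0 := by simp
    obtain ⟨x, hx⟩ := nonempty_of_measure_ne_zero (h.trans_ne hne)
    have hx' : io n (ze n x ^ 2) = c := hx
    set j := ze n x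
    have hj : j ≠ 0 := by
      rintro h0; rw [h0] at hx'; simp at hx'; exact hc hx'.symm
    have hjj : j ≠ -j := by
      intro e
      have h2 : (2 : ZMod (qq n)) * j = 0 := by linear_combination e
      rcases mul_eq_zero.1 h2 with h2 | h2
      · have : ((2 : ℕ) : ZMod (qq n)) = 0 := by exact_mod_cast h2
        rw [ZMod.natCast_eq_zero_iff] at this
        have := Nat.le_of_dvd two_pos this
        omega
      · exact hj h2
    have hsub : ze n ⁻¹' {j} ∪ ze n ⁻¹' {-j} ⊆ {x | io n (ze n x ^ 2) = c} := by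
      rintro y (hy | hy)
      · have hy' : ze n y = j := hy
        show io n (ze n y ^ 2) = c
        rw [hy', hx']
      · have hy' : ze n y = -j := hy
        show io n (ze n y ^ 2) = c
        rw [hy', neg_sq, hx']
    have hle := measure_mono (μ := muX) hsub
    rw [measure_union (Disjoint.preimage _ (disjoint_singleton.2 hjj))
      ((continuous_ze n).measurable (measurableSet_singleton _)), measure_ze, measure_ze, h] at hle
    have hlt : (qq n : ℝ≥0∞)⁻¹ < (qq n : ℝ≥0∞)⁻¹ + (qq n : ℝ≥0∞)⁻¹ :=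
      ENNReal.lt_add_right (by simp [(qq_pos n).ne']) hne
    exact absurd (hlt.trans_le hle) (lt_irrefl _)

end Pool.Agent.MP_a0be58_an

end

-- part MP_a0be58_an.Folner
section

/-! Existence of a Folner sequence. -/

open Filter Topology Finset

namespace Pool.Agent.MP_a0be58_an

/-- Boxes. -/
noncomputable def box (n : ℕ) : Finset Zw := (range n).finsupp fun _ => Ico (0 : ℤ) (n + 1)

lemma card_box (n : ℕ) : (box n).card = (n + 1) ^ n := by
  simp [box, card_finsupp]

lemma card_sdiff_Ico (n : ℕ) (g : ℤ) :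
    (Ico (0 : ℤ) (n + 1) \ Ico g (g + (n + 1))).card ≤ g.natAbs := by
  have : Ico (0 : ℤ) (n + 1) \ Ico g (g + (n + 1)) ⊆ Ico 0 g ∪ Ico (g + (n + 1)) (n + 1) := by
    intro x hx
    simp only [Finset.mem_sdiff, Finset.mem_Ico, Finset.mem_union] at *
    omega
  refine (card_le_card this).trans ((card_union_le _ _).trans ?_)
  simp only [Int.card_Ico]
  omega

lemma card_box_sdiff (γ : Zw) (n : ℕ) (hn : γ.support ⊆ range n) :
    (box n \ (box n).image fun x => γ + x).card * (n + 1) ≤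
      (∑ i ∈ γ.support, (γ i).natAbs) * (n + 1) ^ n := by
  let t : ℕ → Finset ℤ := fun _ => Ico (0 : ℤ) (n + 1)
  let u : ℕ → Finset Zw := fun i =>
    (range n).finsupp (Function.update t i (t i \ Ico (γ i) (γ i + (n + 1))))
  have hsub : (box n \ (box n).image fun x => γ + x) ⊆ γ.support.biUnion u := by
    intro x hx
    obtain ⟨h1, h2⟩ := mem_sdiff.1 hx
    obtain ⟨h3, h4⟩ := mem_finsupp_iff.1 h1
    have h5 : x - γ ∉ box n := fun h => h2 (mem_image.2 ⟨_, h, by abel⟩)
    have h6 : (x - γ).support ⊆ range n := Finsupp.support_sub.trans (union_subset h3 hn)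
    rw [box, mem_finsupp_iff, not_and] at h5
    have h7 := h5 h6
    push Not at h7
    obtain ⟨i, hi, h8⟩ := h7
    have h9 := h4 i hi
    have hγ : i ∈ γ.support := by
      rw [Finsupp.mem_support_iff]
      intro h0
      apply h8
      simpa [h0] using h9
    refine mem_biUnion.2 ⟨i, hγ, mem_finsupp_iff.2 ⟨h3, fun j hj => ?_⟩⟩
    by_cases hji : j = i
    · subst hji
      rw [Function.update_self]
      simp only [t, Finsupp.sub_apply, Finset.mem_sdiff, Finset.mem_Ico] at *
      omega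
    · rw [Function.update_of_ne hji]; exact h4 j hj
  have hu : ∀ i ∈ γ.support, (u i).card * (n + 1) ≤ (γ i).natAbs * (n + 1) ^ n := by
    intro i hi
    have hi' := hn hi
    simp only [u, card_finsupp]
    rw [← mul_prod_erase _ _ hi', Function.update_self,
      prod_congr rfl (g := fun _ => n + 1) (fun j hj => by
        rw [Function.update_of_ne (ne_of_mem_erase hj)]; simp [t]),
      prod_const, card_erase_of_mem hi', card_range, mul_assoc, ← pow_succ]
    have : n - 1 + 1 = n := by have := mem_range.1 hi'; omega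
    rw [this]
    exact Nat.mul_le_mul_right _ (card_sdiff_Ico n _)
  calc _ ≤ (∑ i ∈ γ.support, (u i).card) * (n + 1) :=
        Nat.mul_le_mul_right _ ((card_le_card hsub).trans card_biUnion_le)
    _ ≤ _ := by rw [sum_mul, sum_mul]; exact sum_le_sum hu

lemma isFolner_box : IsFolner box := by
  refine ⟨fun n => card_pos.1 (by rw [card_box]; positivity), fun γ => ?_⟩
  set M : ℕ := ∑ i ∈ γ.support, (γ i).natAbs
  have h0 : Tendsto (fun n : ℕ => (2 * M : ℝ) * (1 / ((n : ℝ) + 1))) atTop (𝓝 0) := by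
    simpa using tendsto_one_div_add_atTop_nhds_zero_nat.const_mul (2 * M : ℝ)
  refine squeeze_zero' (Eventually.of_forall fun n => by positivity) ?_ h0
  obtain ⟨n₀, hn₀⟩ := γ.support.exists_nat_subset_range
  filter_upwards [eventually_ge_atTop n₀] with n hn
  have h1 := card_box_sdiff γ n (hn₀.trans (range_subset_range.2 hn))
  have h2 : ((box n).image fun x => γ + x).card = (box n).card :=
    card_image_of_injective _ (add_right_injective γ)
  have h3 := card_sdiff_comm h2
  rw [symmDiff_def, sup_eq_union, card_union_of_disjoint disjoint_sdiff_sdiff, h3, card_box,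
    div_le_iff₀ (by positivity)]
  have h4 : ((box n \ (box n).image fun x => γ + x).card : ℝ) * (n + 1) ≤ M * (n + 1) ^ n := by
    exact_mod_cast h1
  push_cast
  rw [mul_one_div, div_mul_eq_mul_div, le_div_iff₀ (by positivity)]
  linarith

end Pool.Agent.MP_a0be58_an

end
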